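import Pool.Agent.SemiRandom.Game

/-!
# Collecting phases

A phase in which, as long as the number `N` of pending vertices exceeds a threshold, every
pending vertex that is offered can be settled.
-/

namespace Pool.Agent.SemiRandom

open Finset

/-- The normalised second moment of the number of pending vertices. -/
noncomputable def psi (n μ d : ℝ) (T : ℕ) (N : ℝ) : ℝ :=
  (N * (N - 1) * (1 - 2 / n) ^ T + N * (1 - 1 / n) ^ T - 2 * μ * (N * (1 - 1 / n) ^ T) + μ ^ 2) /
    d ^ 2

theorem psi_succ {n μ d : ℝ} (hn : n ≠ 0) (T : ℕ) (N : ℝ) :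
    psi n μ d (T + 1) N = (1 - N / n) * psi n μ d T N + (N / n) * psi n μ d T (N - 1) := by
  unfold psi
  rw [pow_succ, pow_succ, ← mul_div_assoc, ← mul_div_assoc, ← add_div]
  congr 1
  field_simp
  ring

theorem psi_zero (n μ d N : ℝ) : psi n μ d 0 N = (N - μ) ^ 2 / d ^ 2 := by
  unfold psi
  rw [pow_zero, pow_zero]
  congr 1
  ring

theorem psi_nonneg {n μ d : ℝ} (hn : 0 < n) (T : ℕ) :
    ∀ N : ℕ, (N : ℝ) ≤ n → 0 ≤ psi n μ d T N := by
  induction T with
  | zero => intro N _; rw [psi_zero]; positivity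
  | succ T ih =>
    intro N hN
    rw [psi_succ hn.ne']
    have h1 : (N : ℝ) / n ≤ 1 := (div_le_one hn).2 hN
    have h0 : 0 ≤ (N : ℝ) / n := by positivity
    rcases Nat.eq_zero_or_pos N with rfl | hpos
    · simpa using ih 0 (by simpa using hn.le)
    · have h2 : ((N : ℝ) - 1) = ((N - 1 : ℕ) : ℝ) := by
        rw [Nat.cast_sub hpos, Nat.cast_one]
      rw [h2]
      have h3 := ih N hN
      have h4 := ih (N - 1) (by rw [← h2]; linarith)
      have : 0 ≤ 1 - (N : ℝ) / n := by linarith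
      positivity

variable {V : Type} [Fintype V] [DecidableEq V] [Nonempty V]

/-- The collecting lemma. -/
theorem loss_collect {Q : ℕ → Set (V × V) → Prop} {thr : ℕ} {μ d : ℝ}
    (hd : 0 < d) (hthr : d ≤ (thr : ℝ) + 1 - μ)
    (hmono : Mono (fun G => ∃ N ≤ thr, Q N G))
    (hstep : ∀ N G, thr < N → Q N G → ∃ A : Finset V, A.card = N ∧
      (∀ u ∈ A, ∃ v, Q (N - 1) (insert (u, v) G)) ∧ (∀ u ∉ A, ∃ v, Q N (insert (u, v) G)))
    (T : ℕ) : ∀ (N : ℕ) (G : Set (V × V)), Q N G → (N : ℝ) ≤ (Fintype.card V : ℝ) →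
      loss (fun G => ∃ N ≤ thr, Q N G) T G ≤ psi (Fintype.card V : ℝ) μ d T N := by
  have hn : (0 : ℝ) < Fintype.card V := card_pos'
  induction T with
  | zero =>
    intro N G hQ hN
    by_cases h : N ≤ thr
    · rw [loss_eq_zero_of_goal hmono 0 ⟨N, h, hQ⟩]
      exact psi_nonneg hn 0 N hN
    · refine (loss_le_one _ _ _).trans ?_
      rw [psi_zero]
      have h1 : (thr : ℝ) + 1 ≤ N := by exact_mod_cast (not_le.1 h)
      have h2 : d ≤ N - μ := by linarith
      rw [le_div_iff₀ (by positivity), one_mul]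
      exact pow_le_pow_left₀ hd.le h2 2
  | succ T ih =>
    intro N G hQ hN
    by_cases h : N ≤ thr
    · rw [loss_eq_zero_of_goal hmono _ ⟨N, h, hQ⟩]
      exact psi_nonneg hn _ N hN
    · push Not at h
      obtain ⟨A, hA, h1, h2⟩ := hstep N G h hQ
      have hN1 : ((N - 1 : ℕ) : ℝ) = (N : ℝ) - 1 := by
        rw [Nat.cast_sub (by omega), Nat.cast_one]
      have hb : loss (fun G => ∃ N ≤ thr, Q N G) (T + 1) G ≤
          (∑ u : V, if u ∈ A then psi (Fintype.card V : ℝ) μ d T ((N : ℝ) - 1)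
            else psi (Fintype.card V : ℝ) μ d T N) / (Fintype.card V : ℝ) := by
        refine loss_succ_le fun u => ?_
        by_cases hu : u ∈ A
        · obtain ⟨v, hv⟩ := h1 u hu
          refine ⟨v, ?_⟩
          rw [if_pos hu, ← hN1]
          exact ih _ _ hv (by rw [hN1]; linarith)
        · obtain ⟨v, hv⟩ := h2 u hu
          refine ⟨v, ?_⟩
          rw [if_neg hu]
          exact ih _ _ hv hN
      refine hb.trans (le_of_eq ?_)
      rw [psi_succ hn.ne', Finset.sum_ite, Finset.sum_const, Finset.sum_const]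
      have e1 : (Finset.univ.filter fun u => u ∈ A).card = N := by
        rw [← hA]; congr 1; ext u; simp
      have e2 : ((Finset.univ.filter fun u => ¬ u ∈ A).card : ℝ) = (Fintype.card V : ℝ) - N := by
        have := Finset.card_filter_add_card_filter_not (s := (Finset.univ : Finset V))
          (fun u => u ∈ A)
        rw [e1, Finset.card_univ] at this
        rw [← this]; push_cast; ring
      rw [e1, nsmul_eq_mul, nsmul_eq_mul, e2]
      field_simp
      ring

/-- Bound for the second moment with the optimal centre. -/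
theorem psi_le {n d : ℝ} {T N : ℕ} (hn : 2 ≤ n) (hN : (N : ℝ) ≤ n) (hd : 0 < d) :
    psi n (N * (1 - 1 / n) ^ T) d T N ≤ n / d ^ 2 := by
  unfold psi
  refine div_le_div_of_nonneg_right ?_ (by positivity)
  have hn0 : 0 < n := by linarith
  have ha0 : 0 ≤ 1 - 1 / n := by
    have : 1 / n ≤ 1 := by rw [div_le_one hn0]; linarith
    linarith
  have ha1 : 1 - 1 / n ≤ 1 := by
    have : 0 ≤ 1 / n := by positivity
    linarith
  have hb0 : 0 ≤ 1 - 2 / n := by
    have : 2 / n ≤ 1 := by rw [div_le_one hn0]; linarith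
    linarith
  have hb : (1 - 2 / n) ^ T ≤ ((1 - 1 / n) ^ T) ^ 2 := by
    rw [← pow_mul, mul_comm, pow_mul]
    refine pow_le_pow_left₀ hb0 ?_ T
    have : (1 - 1 / n) ^ 2 = 1 - 2 / n + (1 / n) ^ 2 := by ring
    rw [this]
    have := sq_nonneg (1 / n)
    linarith
  have hA1 : (1 - 1 / n) ^ T ≤ 1 := pow_le_one₀ ha0 ha1
  have hA0 : 0 ≤ (1 - 1 / n) ^ T := pow_nonneg ha0 T
  have hB0 : 0 ≤ (1 - 2 / n) ^ T := pow_nonneg hb0 T
  set A := (1 - 1 / n) ^ T
  set B := (1 - 2 / n) ^ T
  have hN0 : (0 : ℝ) ≤ N := Nat.cast_nonneg N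
  have h1 : (N : ℝ) * (N - 1) * B ≤ N ^ 2 * A ^ 2 := by
    have : (N : ℝ) * (N - 1) * B ≤ N ^ 2 * B := by nlinarith [mul_nonneg hN0 hB0]
    exact this.trans (mul_le_mul_of_nonneg_left hb (by positivity))
  have h2 : (N : ℝ) * A ≤ n := by nlinarith
  nlinarith

end Pool.Agent.SemiRandom
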