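import Mathlib

/-!
# Optimal failure probabilities in the semi-random digraph game

`loss Goal T G` is the optimal failure probability of Builder when `T` rounds are left, the
arcs in `G` are already present and Builder wants the arc set to satisfy `Goal` at the end.
-/

namespace Pool.Agent.SemiRandom

open Finset

variable {V : Type} [Fintype V] [DecidableEq V] [Nonempty V]

open Classical in
/-- Optimal failure probability with `T` rounds left. -/
noncomputable def loss (Goal : Set (V × V) → Prop) : ℕ → Set (V × V) → ℝ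
  | 0, G => if Goal G then 0 else 1
  | T + 1, G => (∑ u : V, ⨅ v : V, loss Goal T (insert (u, v) G)) / (Fintype.card V : ℝ)

omit [DecidableEq V] in
theorem card_pos' : (0 : ℝ) < Fintype.card V := by
  exact_mod_cast Fintype.card_pos

omit [DecidableEq V] in
theorem loss_nonneg (Goal : Set (V × V) → Prop) (T : ℕ) (G : Set (V × V)) :
    0 ≤ loss Goal T G := by
  induction T generalizing G with
  | zero => simp only [loss]; split_ifs <;> norm_num
  | succ T ih =>
    simp only [loss]
    refine div_nonneg (Finset.sum_nonneg fun u _ => ?_) card_pos'.le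
    exact le_ciInf fun v => ih _

omit [DecidableEq V] [Nonempty V] in
theorem iInf_loss_le (Goal : Set (V × V) → Prop) (T : ℕ) (G : Set (V × V)) (u v : V) :
    (⨅ v : V, loss Goal T (insert (u, v) G)) ≤ loss Goal T (insert (u, v) G) :=
  ciInf_le (Set.finite_range _).bddBelow v

omit [DecidableEq V] in
/-- One step: choose a reply for every offer. -/
theorem loss_succ_le {Goal : Set (V × V) → Prop} {T : ℕ} {G : Set (V × V)} {f : V → ℝ}
    (h : ∀ u, ∃ v, loss Goal T (insert (u, v) G) ≤ f u) :
    loss Goal (T + 1) G ≤ (∑ u, f u) / (Fintype.card V : ℝ) := by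
  simp only [loss]
  refine div_le_div_of_nonneg_right (Finset.sum_le_sum fun u _ => ?_) card_pos'.le
  obtain ⟨v, hv⟩ := h u
  exact (iInf_loss_le Goal T G u v).trans hv

omit [DecidableEq V] in
theorem loss_le_one (Goal : Set (V × V) → Prop) (T : ℕ) (G : Set (V × V)) :
    loss Goal T G ≤ 1 := by
  induction T generalizing G with
  | zero => simp only [loss]; split_ifs <;> norm_num
  | succ T ih =>
    have h := loss_succ_le (Goal := Goal) (T := T) (G := G) (f := fun _ => 1)
      (fun u => ⟨Classical.arbitrary V, ih _⟩)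
    refine h.trans ?_
    rw [Finset.sum_const, Finset.card_univ, nsmul_eq_mul, mul_one]
    exact (div_self card_pos'.ne').le

/-- The goal is monotone in the arc set. -/
def Mono (Goal : Set (V × V) → Prop) : Prop := ∀ G G', G ⊆ G' → Goal G → Goal G'

omit [DecidableEq V] in
theorem loss_eq_zero_of_goal {Goal : Set (V × V) → Prop} (hm : Mono Goal) (T : ℕ)
    {G : Set (V × V)} (h : Goal G) : loss Goal T G = 0 := by
  induction T generalizing G with
  | zero => simp [loss, h]
  | succ T ih =>
    refine le_antisymm ?_ (loss_nonneg _ _ _)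
    have h' := loss_succ_le (Goal := Goal) (T := T) (G := G) (f := fun _ => 0)
      (fun u => ⟨Classical.arbitrary V, (ih (hm _ _ (Set.subset_insert _ _) h)).le⟩)
    simpa using h'

omit [DecidableEq V] in
/-- Composition of two phases. -/
theorem loss_comp {Goal Mid : Set (V × V) → Prop} {T₂ : ℕ} {η : ℝ} (hη : 0 ≤ η)
    (h : ∀ G, Mid G → loss Goal T₂ G ≤ η) (T₁ : ℕ) (G : Set (V × V)) :
    loss Goal (T₁ + T₂) G ≤ loss Mid T₁ G + η := by
  induction T₁ generalizing G with
  | zero =>
    rw [Nat.zero_add]
    by_cases hG : Mid G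
    · have := h G hG
      simpa [loss, hG] using this
    · have := loss_le_one Goal T₂ G
      simp only [loss, hG, if_false]
      linarith
  | succ T ih =>
    rw [show T + 1 + T₂ = (T + T₂) + 1 by omega]
    have hstep : loss Goal (T + T₂ + 1) G ≤
        (∑ u : V, ((⨅ v : V, loss Mid T (insert (u, v) G)) + η)) / (Fintype.card V : ℝ) := by
      refine loss_succ_le fun u => ?_
      obtain ⟨v, hv⟩ := exists_eq_ciInf_of_finite (f := fun v : V => loss Mid T (insert (u, v) G))
      refine ⟨v, (ih _).trans ?_⟩
      rw [← hv]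
    refine hstep.trans (le_of_eq ?_)
    rw [Finset.sum_add_distrib, Finset.sum_const, Finset.card_univ, nsmul_eq_mul, add_div,
      mul_comm, mul_div_assoc, div_self card_pos'.ne', mul_one]
    rfl

omit [DecidableEq V] in
theorem loss_comp' {Goal Mid : Set (V × V) → Prop} {T₁ T₂ : ℕ} {η₁ η₂ : ℝ} {G : Set (V × V)}
    (hη : 0 ≤ η₂) (h₁ : loss Mid T₁ G ≤ η₁) (h₂ : ∀ G, Mid G → loss Goal T₂ G ≤ η₂) :
    loss Goal (T₁ + T₂) G ≤ η₁ + η₂ :=
  (loss_comp hη h₂ T₁ G).trans (by linarith)

omit [DecidableEq V] in
theorem loss_add_le {Goal : Set (V × V) → Prop} (hm : Mono Goal) (T T' : ℕ) (G : Set (V × V)) :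
    loss Goal (T + T') G ≤ loss Goal T G := by
  have := loss_comp (Goal := Goal) (Mid := Goal) (T₂ := T') le_rfl
    (fun G hG => (loss_eq_zero_of_goal hm T' hG).le) T G
  simpa using this

omit [DecidableEq V] in
theorem loss_antitone {Goal : Set (V × V) → Prop} (hm : Mono Goal) {T T' : ℕ} (h : T ≤ T')
    (G : Set (V × V)) : loss Goal T' G ≤ loss Goal T G := by
  obtain ⟨k, rfl⟩ := Nat.exists_eq_add_of_le h
  exact loss_add_le hm T k G

/-! ### Strategies -/

/-- A strategy of Builder: in round `t` (`t = 0, 1, …`), having seen the offers of the rounds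
`0, …, t`, it picks a vertex. -/
abbrev Strat (V : Type) : Type := (t : ℕ) → (Fin (t + 1) → V) → V

/-- The set of arcs built in `T` rounds against the offers `ω`. -/
def built {T : ℕ} (σ : Strat V) (ω : Fin T → V) : Set (V × V) :=
  {p | ∃ t : Fin T, p = (ω t, σ t fun s : Fin ((t : ℕ) + 1) => ω ⟨s, by omega⟩)}

/-- The strategy which replies to `u` first by `v` and then follows `τ`. -/
def consStrat (v : V → V) (τ : V → Strat V) : Strat V
  | 0, h => v (h 0)
  | t + 1, h => τ (h 0) t (fun s => h s.succ)

omit [Fintype V] [DecidableEq V] [Nonempty V] in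
theorem built_cons {T : ℕ} (v : V → V) (τ : V → Strat V) (u : V) (ω : Fin T → V) :
    built (consStrat v τ) (Fin.cons u ω : Fin (T + 1) → V) =
      insert (u, v u) (built (τ u) ω) := by
  ext p
  constructor
  · rintro ⟨t, rfl⟩
    refine Fin.cases ?_ (fun t => ?_) t
    · left; rfl
    · right
      exact ⟨t, rfl⟩
  · rintro (rfl | ⟨t, rfl⟩)
    · exact ⟨0, rfl⟩
    · exact ⟨t.succ, rfl⟩

open Classical in
omit [DecidableEq V] [Nonempty V] in
theorem ncard_eq_sum {α : Type} [Fintype α] (P : α → Prop) :
    (({ω | P ω} : Set α).ncard : ℝ) = ∑ ω : α, if P ω then (1 : ℝ) else 0 := by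
  rw [Set.ncard_eq_toFinset_card', Set.toFinset_ofPred, Finset.card_filter]
  push_cast
  rfl

omit [DecidableEq V] [Nonempty V] in
theorem ncard_cons {T : ℕ} (P : (Fin (T + 1) → V) → Prop) :
    (({ω | P ω} : Set (Fin (T + 1) → V)).ncard : ℝ) =
      ∑ u : V, (({ω | P (Fin.cons u ω)} : Set (Fin T → V)).ncard : ℝ) := by
  classical
  simp only [ncard_eq_sum]
  rw [← (Fin.consEquiv (fun _ : Fin (T + 1) => V)).sum_comp, Fintype.sum_prod_type]
  rfl

omit [DecidableEq V] in
/-- There is a strategy whose failure probability is `loss`. -/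
theorem exists_strat (Goal : Set (V × V) → Prop) (T : ℕ) (G : Set (V × V)) :
    ∃ σ : Strat V, (({ω : Fin T → V | ¬ Goal (G ∪ built σ ω)} : Set (Fin T → V)).ncard : ℝ) =
      loss Goal T G * (Fintype.card V : ℝ) ^ T := by
  induction T generalizing G with
  | zero =>
    refine ⟨fun _ _ => Classical.arbitrary V, ?_⟩
    have hb : ∀ ω : Fin 0 → V, built (fun _ _ => Classical.arbitrary V) ω = ∅ := by
      intro ω
      ext p
      simp [built]
    simp only [hb, Set.union_empty, loss, pow_zero, mul_one]
    by_cases h : Goal G <;> simp [h]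
  | succ T ih =>
    have hv : ∀ u : V, ∃ v : V, loss Goal T (insert (u, v) G) =
        ⨅ v : V, loss Goal T (insert (u, v) G) := fun u =>
      exists_eq_ciInf_of_finite (f := fun v : V => loss Goal T (insert (u, v) G))
    choose v hv using hv
    have hτ : ∀ u : V, ∃ σ : Strat V,
        (({ω : Fin T → V | ¬ Goal (insert (u, v u) G ∪ built σ ω)} :
          Set (Fin T → V)).ncard : ℝ) =
        loss Goal T (insert (u, v u) G) * (Fintype.card V : ℝ) ^ T := fun u => ih _
    choose τ hτ using hτ
    refine ⟨consStrat v τ, ?_⟩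
    rw [ncard_cons]
    have : ∀ u : V, (({ω : Fin T → V |
          ¬ Goal (G ∪ built (consStrat v τ) (Fin.cons u ω : Fin (T + 1) → V))} :
            Set (Fin T → V)).ncard : ℝ) =
        (⨅ v : V, loss Goal T (insert (u, v) G)) * (Fintype.card V : ℝ) ^ T := by
      intro u
      rw [← hv u, ← hτ u]
      congr 2
      ext ω
      simp only [Set.mem_ofPred_eq, built_cons]
      rw [Set.union_insert, Set.insert_union]
    rw [Finset.sum_congr rfl fun u _ => this u, ← Finset.sum_mul]
    have hc := (card_pos' (V := V)).ne'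
    simp only [loss]
    rw [pow_succ]
    field_simp

/-- The arcs produced by an oblivious strategy. -/
def oblArcs {ι : Type} (κ : ι → V → V) (ω : ι → V) : Set (V × V) :=
  {p | ∃ t : ι, p = (ω t, κ t (ω t))}

omit [DecidableEq V] in
/-- Oblivious strategies bound the optimal failure probability. -/
theorem loss_oblivious (Goal : Set (V × V) → Prop) (T : ℕ) (κ : Fin T → V → V)
    (G : Set (V × V)) :
    loss Goal T G ≤
      (({ω : Fin T → V | ¬ Goal (G ∪ oblArcs κ ω)} : Set (Fin T → V)).ncard : ℝ) /
        (Fintype.card V : ℝ) ^ T := by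
  induction T generalizing G with
  | zero =>
    have hb : ∀ ω : Fin 0 → V, oblArcs κ ω = ∅ := by
      intro ω
      ext p
      simp [oblArcs]
    simp only [hb, Set.union_empty, loss, pow_zero, div_one]
    by_cases h : Goal G <;> simp [h]
  | succ T ih =>
    refine (loss_succ_le (f := fun u =>
      (({ω : Fin T → V | ¬ Goal (insert (u, κ 0 u) G ∪ oblArcs (fun t => κ t.succ) ω)} :
        Set (Fin T → V)).ncard : ℝ) /
        (Fintype.card V : ℝ) ^ T) fun u => ⟨κ 0 u, ih _ _⟩).trans (le_of_eq ?_)
    rw [ncard_cons, ← Finset.sum_div, pow_succ, div_div]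
    congr 1
    refine Finset.sum_congr rfl fun u _ => ?_
    congr 2
    ext ω
    simp only [Set.mem_ofPred_eq]
    have : oblArcs κ (Fin.cons u ω : Fin (T + 1) → V) =
        insert (u, κ 0 u) (oblArcs (fun t => κ t.succ) ω) := by
      ext p
      constructor
      · rintro ⟨t, rfl⟩
        refine Fin.cases ?_ (fun t => ?_) t
        · left; rfl
        · right; exact ⟨t, rfl⟩
      · rintro (rfl | ⟨t, rfl⟩)
        · exact ⟨0, rfl⟩
        · exact ⟨t.succ, rfl⟩
    rw [this, Set.union_insert, Set.insert_union]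

end Pool.Agent.SemiRandom
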