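import Pool.Agent.SemiRandom.RepairPhase

/-!
# Assembling the phases
-/

namespace Pool.Agent.SemiRandom

open Finset

theorem one_sub_pow_le {n : ℝ} (hn : 1 ≤ n) (T : ℕ) :
    (1 - 1 / n) ^ T ≤ Real.exp (-(T / n)) := by
  have h0 : 0 ≤ 1 - 1 / n := by
    have : 1 / n ≤ 1 := by rw [div_le_one (by linarith)]; exact hn
    linarith
  have h1 : 1 - 1 / n ≤ Real.exp (-(1 / n)) := by
    have := Real.add_one_le_exp (-(1 / n))
    linarith
  refine (pow_le_pow_left₀ h0 h1 T).trans (le_of_eq ?_)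
  rw [← Real.exp_nat_mul]
  congr 1
  ring

theorem exists_exp_neg_le {x : ℝ} (hx : 0 < x) : ∃ K : ℕ, Real.exp (-(K : ℝ)) ≤ x := by
  obtain ⟨K, hK⟩ := exists_nat_gt (1 / x)
  refine ⟨K, ?_⟩
  have h1 : (K : ℝ) + 1 ≤ Real.exp K := Real.add_one_le_exp _
  have h2 : 1 / x ≤ Real.exp K := by linarith
  rw [Real.exp_neg]
  rw [div_le_iff₀ hx] at h2
  rw [inv_le_comm₀ (Real.exp_pos _) hx, inv_eq_one_div, div_le_iff₀ hx]
  linarith

theorem rho_ge {n : ℕ} [NeZero n] {T i : ℕ} (hT : (n : ℝ) / 2 ^ i ≤ T) :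
    (1 / 2 : ℝ) ^ (i + 1) ≤ rho (Fin n) T := by
  have hn1 : (1 : ℝ) ≤ n := by exact_mod_cast Nat.one_le_iff_ne_zero.2 (NeZero.ne n)
  unfold rho
  rw [Fintype.card_fin]
  have h1 := one_sub_pow_le hn1 T
  set x : ℝ := (1 / 2 : ℝ) ^ i with hx
  have hx0 : 0 < x := by positivity
  have hx1 : x ≤ 1 := pow_le_one₀ (by norm_num) (by norm_num)
  have hTn : x ≤ T / n := by
    rw [le_div_iff₀ (by linarith), hx, one_div, inv_pow]
    rw [div_eq_mul_inv] at hT
    linarith
  have h2 : Real.exp (-(T / n)) ≤ Real.exp (-x) := Real.exp_le_exp.2 (by linarith)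
  have h3 : Real.exp (-x) ≤ 1 - x / 2 := by
    have h4 : 1 + x ≤ Real.exp x := by linarith [Real.add_one_le_exp x]
    rw [Real.exp_neg, inv_le_comm₀ (Real.exp_pos _) (by linarith)]
    refine le_trans ?_ h4
    rw [inv_le_comm₀ (by linarith) (by linarith), ← one_div, div_le_iff₀ (by linarith)]
    nlinarith
  have h5 : (1 / 2 : ℝ) ^ (i + 1) = x / 2 := by rw [hx, pow_succ]; ring
  rw [h5]
  linarith

variable {n : ℕ} [NeZero n]

/-- Phase 1. -/
theorem phase1 {o : Fin n → Bool} {ε : ℝ} (hε : 0 < ε) (hn : 2 ≤ n)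
    (hs : ε * n ≤ (sinks o).card) {K : ℕ} (hK : Real.exp (-(K : ℝ)) ≤ ε / 2) :
    loss (Q2a o (sources o).card) (K * n) ∅ ≤ 4 / (ε ^ 2 * n) := by
  have hn2 : (2 : ℝ) ≤ n := by exact_mod_cast hn
  have hn0 : (0 : ℝ) < n := by linarith
  have hsne : (sinks o).Nonempty := by
    rw [← Finset.card_pos]
    have : (0 : ℝ) < (sinks o).card := lt_of_lt_of_le (by positivity) hs
    exact_mod_cast this
  set U : Finset (Fin n) := Finset.univ.filter fun i => o i = o (i - 1) with hU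
  set N := U.card + (sources o).card with hN
  have hQ : Q1 o N (∅ : Set (Fin n × Fin n)) := by
    refine ⟨Equiv.refl _, U, fun i hi => (Finset.mem_filter.1 hi).2, rfl, ?_⟩
    intro i j hi his hij
    exfalso
    have h1 := not_sink_of_arc hij
    rw [mem_sinks] at h1
    rw [mem_sources] at his
    apply hi
    rw [hU, Finset.mem_filter]
    refine ⟨Finset.mem_univ _, ?_⟩
    cases h2 : o i <;> cases h3 : o (i - 1) <;> simp_all
  have hdisj : Disjoint U (sources o) := by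
    rw [Finset.disjoint_left]
    intro k hk hks
    rw [mem_sources] at hks
    have := (Finset.mem_filter.1 hk).2
    rw [hks.1, hks.2] at this
    exact absurd this (by simp)
  have hNn : N ≤ n := by
    rw [hN, ← Finset.card_union_of_disjoint hdisj]
    exact (Finset.card_le_univ _).trans (le_of_eq (Fintype.card_fin n))
  have hNn' : (N : ℝ) ≤ (n : ℝ) := by exact_mod_cast hNn
  set μ : ℝ := N * (1 - 1 / (n : ℝ)) ^ (K * n) with hμ
  have hμle : μ ≤ ε * n / 2 := by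
    have h1 := one_sub_pow_le (n := (n : ℝ)) (by linarith) (K * n)
    have h2 : ((K * n : ℕ) : ℝ) / n = K := by push_cast; field_simp
    rw [h2] at h1
    have h3 : (1 - 1 / (n : ℝ)) ^ (K * n) ≤ ε / 2 := h1.trans hK
    have h4 : 0 ≤ (1 - 1 / (n : ℝ)) ^ (K * n) := by
      refine pow_nonneg ?_ _
      have : 1 / (n : ℝ) ≤ 1 := by rw [div_le_one hn0]; linarith
      linarith
    calc μ ≤ n * (ε / 2) := mul_le_mul hNn' h3 h4 hn0.le
      _ = ε * n / 2 := by ring
  have hcs : ((sources o).card : ℝ) = (sinks o).card := by exact_mod_cast card_sources_eq o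
  have hd : 0 < ε * n / 2 := by positivity
  have key := loss_collect (V := Fin n) (Q := Q1 o) (thr := (sources o).card) (μ := μ)
    (d := ε * n / 2) hd (by rw [hcs]; linarith) (mono_exists (fun N => Q1.mono_set) _)
    (fun N G h1 h2 => Q1_step hsne N G h1 h2) (K * n) N ∅ hQ
    (by rw [Fintype.card_fin]; exact hNn')
  rw [Fintype.card_fin] at key
  have hcomp := loss_comp' (Goal := Q2a o (sources o).card) (T₂ := 0) le_rfl key
    (fun G hG => (loss_eq_zero_of_goal Q2a.mono_set 0 (Q2a_of_Q1 hG)).le)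
  rw [Nat.add_zero, add_zero] at hcomp
  refine hcomp.trans ((psi_le hn2 hNn' hd).trans (le_of_eq ?_))
  field_simp
  norm_num

/-- A collecting phase with threshold proportional to `n`. -/
theorem phase2_aux {Q : ℕ → Set (Fin n × Fin n) → Prop} {δ : ℝ} (hδ : 0 < δ) (hn : 2 ≤ n)
    (hmono : ∀ N, Mono (Q N))
    (hstep : ∀ N G, Q N G → ∃ A : Finset (Fin n), A.card = N ∧
      (∀ u ∈ A, ∃ v, Q (N - 1) (insert (u, v) G)) ∧ (∀ u ∉ A, ∃ v, Q N (insert (u, v) G)))
    {K N : ℕ} (hK : Real.exp (-(K : ℝ)) ≤ δ / 2) (hN : N ≤ n) {G : Set (Fin n × Fin n)}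
    (hG : Q N G) :
    loss (fun G => ∃ N ≤ ⌊δ * n⌋₊, Q N G) (K * n) G ≤ 4 / (δ ^ 2 * n) := by
  have hn2 : (2 : ℝ) ≤ n := by exact_mod_cast hn
  have hn0 : (0 : ℝ) < n := by linarith
  have hNn' : (N : ℝ) ≤ (n : ℝ) := by exact_mod_cast hN
  set μ : ℝ := N * (1 - 1 / (n : ℝ)) ^ (K * n) with hμ
  have hμle : μ ≤ δ * n / 2 := by
    have h1 := one_sub_pow_le (n := (n : ℝ)) (by linarith) (K * n)
    have h2 : ((K * n : ℕ) : ℝ) / n = K := by push_cast; field_simp
    rw [h2] at h1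
    have h3 : (1 - 1 / (n : ℝ)) ^ (K * n) ≤ δ / 2 := h1.trans hK
    have h4 : 0 ≤ (1 - 1 / (n : ℝ)) ^ (K * n) := by
      refine pow_nonneg ?_ _
      have : 1 / (n : ℝ) ≤ 1 := by rw [div_le_one hn0]; linarith
      linarith
    calc μ ≤ n * (δ / 2) := mul_le_mul hNn' h3 h4 hn0.le
      _ = δ * n / 2 := by ring
  have hd : 0 < δ * n / 2 := by positivity
  have hfl : δ * n < (⌊δ * n⌋₊ : ℝ) + 1 := Nat.lt_floor_add_one _
  have key := loss_collect (V := Fin n) (Q := Q) (thr := ⌊δ * n⌋₊) (μ := μ)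
    (d := δ * n / 2) hd (by linarith) (mono_exists hmono _)
    (fun N G _ h2 => hstep N G h2) (K * n) N G hG
    (by rw [Fintype.card_fin]; exact hNn')
  rw [Fintype.card_fin] at key
  refine key.trans ((psi_le hn2 hNn' hd).trans (le_of_eq ?_))
  field_simp
  norm_num

/-- Phases 1 and 2. -/
theorem phase12 {o : Fin n → Bool} {ε δ : ℝ} (hε : 0 < ε) (hδ : 0 < δ) (hn : 2 ≤ n)
    (hs : ε * n ≤ (sinks o).card) {K₁ K₂ : ℕ} (hK₁ : Real.exp (-(K₁ : ℝ)) ≤ ε / 2)
    (hK₂ : Real.exp (-(K₂ : ℝ)) ≤ δ / 2) :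
    loss (Near o (2 * (δ * n))) (K₁ * n + (K₂ * n + K₂ * n)) ∅ ≤
      4 / (ε ^ 2 * n) + (4 / (δ ^ 2 * n) + 4 / (δ ^ 2 * n)) := by
  have hsn : (sources o).card ≤ n :=
    (Finset.card_le_univ _).trans (le_of_eq (Fintype.card_fin n))
  refine loss_comp' (by positivity) (phase1 hε hn hs hK₁) fun G hG => ?_
  refine loss_comp' (by positivity)
    (phase2_aux hδ hn (fun N => Q2a.mono_set) (fun N G h => Q2a_step N G h) hK₂ hsn hG)
    fun G hG => ?_
  have h := phase2_aux hδ hn (Q := Q2b o ⌊δ * n⌋₊) (fun N => Q2b.mono_set)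
    (fun N G h => Q2b_step N G h) hK₂ hsn (Q2b_of_Q2a hG)
  have hcomp := loss_comp' (Goal := Near o (2 * (δ * n))) (T₂ := 0) le_rfl h
    (fun G hG => (loss_eq_zero_of_goal Near.mono_set 0 (by
      obtain ⟨π, I, h1, h2⟩ := near_of_Q2b hG
      refine ⟨π, I, h1.trans ?_, h2⟩
      have : (⌊δ * n⌋₊ : ℝ) ≤ δ * n := Nat.floor_le (by positivity)
      linarith)).le)
  rwa [Nat.add_zero, add_zero] at hcomp

/-- Length of a quarter of the `k`-th repair phase. -/
def rounds (n k : ℕ) : ℕ := n / 2 ^ k + 1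

theorem rounds_ge (n k : ℕ) : (n : ℝ) / 2 ^ k ≤ rounds n k := by
  unfold rounds
  have h : n < (n / 2 ^ k + 1) * 2 ^ k := by
    have := Nat.lt_div_mul_add (a := n) (b := 2 ^ k) (by positivity)
    rw [add_mul, one_mul]; exact this
  rw [div_le_iff₀ (by positivity)]
  exact_mod_cast h.le

theorem rounds_le (n k : ℕ) : (rounds n k : ℝ) ≤ n * (1 / 2) ^ k + 1 := by
  unfold rounds
  push_cast
  have h : (((n / 2 ^ k : ℕ)) : ℝ) ≤ (n : ℝ) / ((2 ^ k : ℕ) : ℝ) := Nat.cast_div_le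
  push_cast at h
  rw [one_div, inv_pow, ← div_eq_mul_inv]
  linarith

/-- Bound on the number of unfinished sources before the `k`-th repair phase. -/
noncomputable def Mk (δ : ℝ) (n k : ℕ) : ℝ := δ * n * (1 / 2) ^ (8 * k)

/-- One repair phase. -/
theorem repair_step {o : Fin n → Bool} {ε δ : ℝ} (hε : 0 < ε) (hδ : δ = ε / 2 ^ 14)
    (hn : 2 ≤ n) (hs : ε * n ≤ (sinks o).card) (k : ℕ) {G : Set (Fin n × Fin n)}
    (hG : Near o (Mk δ n k) G) :
    loss (Near o (Mk δ n (k + 1))) (4 * rounds n k) G ≤ (1 / 2) ^ (4 * k + 1) ∧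
    loss (Near o (Mk δ n (k + 1))) (4 * rounds n k) G ≤
      128 * 2 ^ (16 * (k + 1)) / (δ ^ 2 * n) := by
  have hn2 : (2 : ℝ) ≤ n := by exact_mod_cast hn
  have hn0 : (0 : ℝ) < n := by linarith
  have hδ0 : 0 < δ := by rw [hδ]; positivity
  set x : ℝ := (1 / 2 : ℝ) ^ k with hx
  have hx0 : 0 < x := by positivity
  have hx1 : x ≤ 1 := pow_le_one₀ (by norm_num) (by norm_num)
  have hMk : Mk δ n k = δ * n * x ^ 8 := by
    unfold Mk; rw [hx, ← pow_mul, mul_comm 8 k]
  have hMk1 : Mk δ n (k + 1) = δ * n * x ^ 8 / 256 := by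
    unfold Mk
    rw [hx, ← pow_mul, show 8 * (k + 1) = k * 8 + 8 by ring, pow_add]
    norm_num
    ring
  have hx8 : x ^ 8 ≤ 1 := pow_le_one₀ hx0.le hx1
  have hM0 : 0 < Mk δ n k := by rw [hMk]; positivity
  have hM1 : 0 < Mk δ n (k + 1) := by rw [hMk1]; positivity
  have hMle : Mk δ n k ≤ δ * n := by
    rw [hMk]; exact mul_le_of_le_one_right (by positivity) hx8
  have h3 : 3 * Mk δ n k ≤ ε * n / 2 := by
    have : 3 * (δ * n) ≤ ε * n / 2 := by
      rw [hδ]
      have : 0 < ε * n := by positivity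
      nlinarith
    linarith
  have hεn : 0 < ε * n := by positivity
  have h3s : 3 * Mk δ n k < (sinks o).card := by linarith
  have hρ1 := rho_ge (n := n) (T := rounds n k) (i := k) (rounds_ge n k)
  have hρ2 : x / 2 ≤ rho (Fin n) (rounds n k) := by
    rw [hx]; rw [pow_succ] at hρ1; linarith
  have hρ0 : 0 < rho (Fin n) (rounds n k) := lt_of_lt_of_le (by positivity) hρ2
  set e : ℝ := Mk δ n (k + 1) / 2 * x ^ 4 with he
  have hebound : Mk δ n k ^ 2 / (((sinks o).card - 3 * Mk δ n k) *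
      rho (Fin n) (rounds n k) ^ 4) ≤ e := by
    have hr4 : (x / 2) ^ 4 ≤ rho (Fin n) (rounds n k) ^ 4 := pow_le_pow_left₀ (by positivity) hρ2 4
    have hden : ε * n / 2 * (x / 2) ^ 4 ≤
        ((sinks o).card - 3 * Mk δ n k) * rho (Fin n) (rounds n k) ^ 4 :=
      mul_le_mul (by linarith) hr4 (by positivity) (by linarith)
    refine (div_le_div_of_nonneg_left (by positivity) (by positivity) hden).trans (le_of_eq ?_)
    rw [he, hMk1, hMk, hδ]
    field_simp
    ring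
  constructor
  · refine (loss_repair_markov hn hM1 h3s hρ0 hebound hG).trans (le_of_eq ?_)
    rw [he]
    have : (1 / 2 : ℝ) ^ (4 * k + 1) = x ^ 4 / 2 := by
      rw [hx, ← pow_mul, pow_succ, mul_comm k 4]; ring
    rw [this]
    field_simp
  · have hx4 : x ^ 4 ≤ 1 := pow_le_one₀ hx0.le hx1
    have he2 : e ≤ Mk δ n (k + 1) / 2 := by
      rw [he]; exact mul_le_of_le_one_right (by positivity) hx4
    have he3 : e < Mk δ n (k + 1) := by linarith
    refine (loss_repair_chebyshev hn he3 h3s hρ0 hebound hG).trans ?_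
    have hR : (rounds n k : ℝ) ≤ 2 * n := by
      have := rounds_le n k
      have h1 : (n : ℝ) * (1 / 2) ^ k ≤ n := mul_le_of_le_one_right hn0.le hx1
      linarith
    have hd : (Mk δ n (k + 1) / 2) ^ 2 ≤ (Mk δ n (k + 1) - e) ^ 2 :=
      pow_le_pow_left₀ (by positivity) (by linarith) 2
    have hd0 : 0 < (Mk δ n (k + 1) / 2) ^ 2 := by positivity
    calc 16 * (rounds n k : ℝ) / (Mk δ n (k + 1) - e) ^ 2
        ≤ 16 * (2 * n) / (Mk δ n (k + 1) / 2) ^ 2 :=
          div_le_div₀ (by positivity) (by linarith) hd0 hd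
      _ = 128 * 2 ^ (16 * (k + 1)) / (δ ^ 2 * n) := by
        have h2 : (2 : ℝ) ^ (16 * (k + 1)) = 65536 / x ^ 16 := by
          rw [hx, ← pow_mul, show 16 * (k + 1) = k * 16 + 16 by ring, pow_add, one_div, inv_pow,
            div_inv_eq_mul]
          norm_num
          ring
        rw [h2, hMk1]
        field_simp
        norm_num

/-- The error made in the `k`-th repair phase. -/
noncomputable def errk (δ : ℝ) (n i₀ k : ℕ) : ℝ :=
  if k < i₀ then 128 * 2 ^ (16 * (k + 1)) / (δ ^ 2 * n) else (1 / 2) ^ (4 * k + 1)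

theorem errk_nonneg {δ : ℝ} (n i₀ k : ℕ) : 0 ≤ errk δ n i₀ k := by
  unfold errk; split_ifs <;> positivity

/-- All repair phases. -/
theorem repair_all {o : Fin n → Bool} {ε δ : ℝ} (hε : 0 < ε) (hδ : δ = ε / 2 ^ 14)
    (hn : 2 ≤ n) (hs : ε * n ≤ (sinks o).card) (i₀ : ℕ) (J : ℕ) :
    ∀ (a : ℕ) (G : Set (Fin n × Fin n)), Near o (Mk δ n a) G →
      loss (Near o (Mk δ n (a + J))) (∑ k ∈ Finset.range J, 4 * rounds n (a + k)) G ≤
        ∑ k ∈ Finset.range J, errk δ n i₀ (a + k) := by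
  induction J with
  | zero =>
    intro a G hG
    simp only [Finset.range_zero, Finset.sum_empty, Nat.add_zero]
    exact (loss_eq_zero_of_goal Near.mono_set 0 hG).le
  | succ J ih =>
    intro a G hG
    rw [Finset.sum_range_succ', Finset.sum_range_succ', add_comm _ (4 * rounds n (a + 0)),
      add_comm _ (errk δ n i₀ (a + 0)), Nat.add_zero]
    have hstep := repair_step hε hδ hn hs a hG
    have h1 : loss (Near o (Mk δ n (a + 1))) (4 * rounds n a) G ≤ errk δ n i₀ a := by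
      unfold errk
      split_ifs
      · exact hstep.2
      · exact hstep.1
    have e1 : ∑ k ∈ Finset.range J, 4 * rounds n (a + (k + 1)) =
        ∑ k ∈ Finset.range J, 4 * rounds n (a + 1 + k) :=
      Finset.sum_congr rfl fun k _ => by rw [show a + (k + 1) = a + 1 + k by ring]
    have e2 : ∑ k ∈ Finset.range J, errk δ n i₀ (a + (k + 1)) =
        ∑ k ∈ Finset.range J, errk δ n i₀ (a + 1 + k) :=
      Finset.sum_congr rfl fun k _ => by rw [show a + (k + 1) = a + 1 + k by ring]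
    rw [e1, e2]
    refine loss_comp' (Finset.sum_nonneg fun k _ => errk_nonneg _ _ _) h1 fun G' hG' => ?_
    have := ih (a + 1) G' hG'
    rwa [show a + (J + 1) = a + 1 + J by ring]

theorem sum_rounds_le (n : ℕ) : ∑ k ∈ Finset.range n, 4 * rounds n (0 + k) ≤ 12 * n := by
  have h : ((∑ k ∈ Finset.range n, 4 * rounds n (0 + k) : ℕ) : ℝ) ≤ 12 * n := by
    push_cast
    have h1 : ∀ k ∈ Finset.range n, (4 * (rounds n (0 + k) : ℝ)) ≤
        4 * n * (1 / 2) ^ k + 4 := by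
      intro k _
      have := rounds_le n k
      rw [Nat.zero_add]
      linarith
    refine (Finset.sum_le_sum h1).trans ?_
    rw [Finset.sum_add_distrib, ← Finset.mul_sum, Finset.sum_const, Finset.card_range,
      nsmul_eq_mul]
    have h2 := sum_geometric_two_le n
    have hn : (0 : ℝ) ≤ n := Nat.cast_nonneg n
    nlinarith
  exact_mod_cast h

theorem sum_errk_le {δ : ℝ} (n i₀ : ℕ) :
    ∑ k ∈ Finset.range n, errk δ n i₀ (0 + k) ≤
      i₀ * (128 * 2 ^ (16 * i₀)) / (δ ^ 2 * n) + (1 / 2) ^ i₀ := by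
  have h1 : ∀ k ∈ Finset.range n, errk δ n i₀ (0 + k) ≤
      (if k < i₀ then 128 * 2 ^ (16 * i₀) / (δ ^ 2 * n) else 0) +
        (1 / 2) ^ i₀ / 2 * (1 / 2) ^ k := by
    intro k _
    rw [Nat.zero_add]
    unfold errk
    split_ifs with h
    · have : (128 : ℝ) * 2 ^ (16 * (k + 1)) / (δ ^ 2 * n) ≤ 128 * 2 ^ (16 * i₀) / (δ ^ 2 * n) := by
        refine div_le_div_of_nonneg_right ?_ (by positivity)
        refine mul_le_mul_of_nonneg_left ?_ (by norm_num)
        exact pow_le_pow_right₀ (by norm_num) (by omega)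
      have h' : (0 : ℝ) ≤ (1 / 2) ^ i₀ / 2 * (1 / 2) ^ k := by positivity
      linarith
    · rw [zero_add]
      have h2 : (1 / 2 : ℝ) ^ (4 * k + 1) ≤ (1 / 2) ^ (i₀ + k + 1) :=
        pow_le_pow_of_le_one (by norm_num) (by norm_num) (by omega)
      refine h2.trans (le_of_eq ?_)
      rw [pow_succ, pow_add]
      ring
  refine (Finset.sum_le_sum h1).trans ?_
  rw [Finset.sum_add_distrib, ← Finset.mul_sum]
  refine add_le_add ?_ ?_
  · rw [← Finset.sum_filter, Finset.sum_const, nsmul_eq_mul]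
    have hpos : (0 : ℝ) ≤ 128 * 2 ^ (16 * i₀) / (δ ^ 2 * n) := by positivity
    rw [show (i₀ : ℝ) * (128 * 2 ^ (16 * i₀)) / (δ ^ 2 * n) =
      i₀ * (128 * 2 ^ (16 * i₀) / (δ ^ 2 * n)) by ring]
    refine mul_le_mul_of_nonneg_right ?_ hpos
    have : ((Finset.range n).filter fun k => k < i₀) ⊆ Finset.range i₀ := by
      intro k hk
      rw [Finset.mem_filter] at hk
      exact Finset.mem_range.2 hk.2
    have := Finset.card_le_card this
    rw [Finset.card_range] at this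
    exact_mod_cast this
  · have h2 := sum_geometric_two_le n
    have h3 : (0 : ℝ) ≤ (1 / 2) ^ i₀ / 2 := by positivity
    calc (1 / 2 : ℝ) ^ i₀ / 2 * ∑ k ∈ Finset.range n, (1 / 2 : ℝ) ^ k
        ≤ (1 / 2) ^ i₀ / 2 * 2 := mul_le_mul_of_nonneg_left h2 h3
      _ = (1 / 2) ^ i₀ := by ring

/-- The main estimate. -/
theorem main_loss {ε : ℝ} (hε : 0 < ε) : ∃ C : ℕ, ∀ η : ℝ, 0 < η → ∃ n₀ : ℕ,
    ∀ (n : ℕ) [NeZero n], n₀ ≤ n → ∀ o : Fin n → Bool, ε * n ≤ (sinks o).card →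
      loss (HasCopy o) (C * n) ∅ ≤ η := by
  set δ : ℝ := ε / 2 ^ 14 with hδ
  have hδ0 : 0 < δ := by rw [hδ]; positivity
  obtain ⟨K₁, hK₁⟩ := exists_exp_neg_le (x := ε / 2) (by positivity)
  obtain ⟨K₂, hK₂⟩ := exists_exp_neg_le (x := δ / 2 / 2) (by positivity)
  refine ⟨K₁ + (K₂ + K₂) + 12, fun η hη => ?_⟩
  obtain ⟨i₀, hi₀⟩ := exists_pow_lt_of_lt_one (show 0 < η / 2 by positivity)
    (show (1 / 2 : ℝ) < 1 by norm_num)
  set D : ℝ := 4 / ε ^ 2 + (4 / (δ / 2) ^ 2 + 4 / (δ / 2) ^ 2) +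
    i₀ * (128 * 2 ^ (16 * i₀)) / δ ^ 2 with hD
  have hD0 : 0 < D := by positivity
  obtain ⟨n₁, hn₁⟩ := exists_nat_gt (D / (η / 2))
  refine ⟨max 2 n₁, fun n _ hn o hs => ?_⟩
  have hn2 : 2 ≤ n := le_trans (le_max_left _ _) hn
  have hn1 : n₁ ≤ n := le_trans (le_max_right _ _) hn
  have hn0 : (0 : ℝ) < n := by
    have : (2 : ℝ) ≤ n := by exact_mod_cast hn2
    linarith
  have hDn : D / n ≤ η / 2 := by
    have h1 : D / (η / 2) ≤ n := hn₁.le.trans (by exact_mod_cast hn1)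
    rw [div_le_iff₀ (by positivity)] at h1
    rw [div_le_iff₀ hn0]
    linarith
  have h12 := phase12 (o := o) hε (δ := δ / 2) (by positivity) hn2 hs hK₁ hK₂
  have hM : 2 * (δ / 2 * n) = Mk δ n 0 := by
    unfold Mk; simp; ring
  rw [hM] at h12
  have htot := loss_comp' (Goal := Near o (Mk δ n (0 + n)))
    (T₂ := ∑ k ∈ Finset.range n, 4 * rounds n (0 + k))
    (Finset.sum_nonneg fun k _ => errk_nonneg _ _ _) h12
    (fun G hG => repair_all hε hδ hn2 hs i₀ n 0 G hG)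
  have hsmall : Mk δ n (0 + n) < 1 := by
    unfold Mk
    rw [Nat.zero_add]
    have h1 : (n : ℝ) < 2 ^ n := by exact_mod_cast Nat.lt_two_pow_self
    have hεle : ε ≤ 1 := by
      have h2 : ((sinks o).card : ℝ) ≤ n := by
        have := Finset.card_le_univ (sinks o)
        rw [Fintype.card_fin] at this
        exact_mod_cast this
      have h3 : ε * n ≤ 1 * n := by linarith
      exact le_of_mul_le_mul_right h3 hn0
    have hδ1 : δ ≤ 1 := by
      rw [hδ]
      have : ε / 2 ^ 14 ≤ ε := div_le_self hε.le (by norm_num)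
      linarith
    have h4 : (1 / 2 : ℝ) ^ (8 * n) ≤ (1 / 2) ^ n :=
      pow_le_pow_of_le_one (by norm_num) (by norm_num) (by omega)
    have h5 : (1 / 2 : ℝ) ^ n * 2 ^ n = 1 := by
      rw [← mul_pow]; norm_num
    calc δ * n * (1 / 2) ^ (8 * n) ≤ 1 * n * (1 / 2) ^ n := by gcongr
      _ < 2 ^ n * (1 / 2) ^ n := by
        rw [one_mul]
        exact mul_lt_mul_of_pos_right h1 (by positivity)
      _ = 1 := by rw [mul_comm]; exact h5
  -- copy and padding
  have hcopy := loss_comp' (Goal := HasCopy o) (T₂ := 0) le_rfl htot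
    (fun G hG => (loss_eq_zero_of_goal HasCopy.mono_set 0 (hasCopy_of_near hsmall hG)).le)
  rw [Nat.add_zero, add_zero] at hcopy
  have hT : K₁ * n + (K₂ * n + K₂ * n) + ∑ k ∈ Finset.range n, 4 * rounds n (0 + k) ≤
      (K₁ + (K₂ + K₂) + 12) * n := by
    have := sum_rounds_le n
    calc K₁ * n + (K₂ * n + K₂ * n) + ∑ k ∈ Finset.range n, 4 * rounds n (0 + k)
        ≤ K₁ * n + (K₂ * n + K₂ * n) + 12 * n := by omega
      _ = (K₁ + (K₂ + K₂) + 12) * n := by ring
  refine (loss_antitone HasCopy.mono_set hT ∅).trans (hcopy.trans ?_)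
  have herr := sum_errk_le (δ := δ) n i₀
  have hDexp : D / n = 4 / (ε ^ 2 * n) + (4 / ((δ / 2) ^ 2 * n) + 4 / ((δ / 2) ^ 2 * n)) +
      i₀ * (128 * 2 ^ (16 * i₀)) / (δ ^ 2 * n) := by
    rw [hD, add_div, add_div, add_div]
    simp only [div_div]
  linarith

end Pool.Agent.SemiRandom
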