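import Pool.Agent.SemiRandom.Collect

/-!
# Orientations of the cycle and the first two phases
-/

namespace Pool.Agent.SemiRandom

open Finset

variable {n : ℕ} [NeZero n]

/-- The arcs of the orientation `o` of the cycle on `Fin n`: the edge `{i, i + 1}` is directed
`i → i + 1` if `o i = true` and `i + 1 → i` if `o i = false`. -/
def DArc (o : Fin n → Bool) (i j : Fin n) : Prop :=
  (j = i + 1 ∧ o i = true) ∨ (i = j + 1 ∧ o j = false)

/-- The sinks. -/
def sinks (o : Fin n → Bool) : Finset (Fin n) :=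
  univ.filter fun i => o i = false ∧ o (i - 1) = true

/-- The sources. -/
def sources (o : Fin n → Bool) : Finset (Fin n) :=
  univ.filter fun i => o i = true ∧ o (i - 1) = false

theorem mem_sinks {o : Fin n → Bool} {i : Fin n} :
    i ∈ sinks o ↔ o i = false ∧ o (i - 1) = true := by simp [sinks]

theorem mem_sources {o : Fin n → Bool} {i : Fin n} :
    i ∈ sources o ↔ o i = true ∧ o (i - 1) = false := by simp [sources]

theorem not_sink_of_arc {o : Fin n → Bool} {i j : Fin n} (h : DArc o i j) : i ∉ sinks o := by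
  rw [mem_sinks]
  rcases h with ⟨_, h⟩ | ⟨rfl, h⟩
  · rw [h]; simp
  · rw [add_sub_cancel_right, h]; simp

theorem not_source_of_arc {o : Fin n → Bool} {i j : Fin n} (h : DArc o i j) :
    j ∉ sources o := by
  rw [mem_sources]
  rcases h with ⟨rfl, h⟩ | ⟨_, h⟩
  · rw [add_sub_cancel_right, h]; simp
  · rw [h]; simp

theorem arc_source {o : Fin n → Bool} {p j : Fin n} (h : DArc o p j) :
    j = p + 1 ∨ j = p - 1 := by
  rcases h with ⟨rfl, _⟩ | ⟨rfl, _⟩
  · left; rfl
  · right; rw [add_sub_cancel_right]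

theorem arc_sink {o : Fin n → Bool} {i q : Fin n} (h : DArc o i q) :
    i = q - 1 ∨ i = q + 1 := by
  rcases h with ⟨rfl, _⟩ | ⟨rfl, _⟩
  · left; rw [add_sub_cancel_right]
  · right; rfl

theorem source_arc_succ {o : Fin n → Bool} {p : Fin n} (h : p ∈ sources o) :
    DArc o p (p + 1) := Or.inl ⟨rfl, (mem_sources.1 h).1⟩

theorem source_arc_pred {o : Fin n → Bool} {p : Fin n} (h : p ∈ sources o) :
    DArc o p (p - 1) := Or.inr ⟨(sub_add_cancel p 1).symm, (mem_sources.1 h).2⟩

theorem sink_arc_pred {o : Fin n → Bool} {q : Fin n} (h : q ∈ sinks o) :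
    DArc o (q - 1) q := Or.inl ⟨(sub_add_cancel q 1).symm, (mem_sinks.1 h).2⟩

theorem sink_arc_succ {o : Fin n → Bool} {q : Fin n} (h : q ∈ sinks o) :
    DArc o (q + 1) q := Or.inr ⟨rfl, (mem_sinks.1 h).1⟩

theorem card_sources_eq (o : Fin n → Bool) : (sources o).card = (sinks o).card := by
  have h1 : ((sources o).card : ℤ) - ((sinks o).card : ℤ) =
      ∑ i : Fin n, ((if o i = true then (1 : ℤ) else 0) - if o (i - 1) = true then 1 else 0) := by
    unfold sources sinks
    rw [Finset.card_filter, Finset.card_filter]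
    push_cast
    rw [← Finset.sum_sub_distrib]
    refine Finset.sum_congr rfl fun i _ => ?_
    cases o i <;> cases o (i - 1) <;> simp
  have h2 : ∑ i : Fin n, (if o (i - 1) = true then (1 : ℤ) else 0) =
      ∑ i : Fin n, if o i = true then (1 : ℤ) else 0 :=
    (Equiv.subRight (1 : Fin n)).sum_comp (fun i => if o i = true then (1 : ℤ) else 0)
  rw [Finset.sum_sub_distrib, h2, sub_self] at h1
  omega

open Fin.CommRing in
theorem mem_of_closed_succ {S : Set (Fin n)} {i : Fin n} (hi : i ∈ S)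
    (h : ∀ i ∈ S, i + 1 ∈ S) (j : Fin n) : j ∈ S := by
  have key : ∀ k : ℕ, i + (k : Fin n) ∈ S := by
    intro k
    induction k with
    | zero => simpa using hi
    | succ k ih => rw [Nat.cast_succ, ← add_assoc]; exact h _ ih
  have := key (j - i).val
  rwa [Fin.cast_val_eq_self, add_sub_cancel] at this

open Fin.CommRing in
theorem mem_of_closed_pred {S : Set (Fin n)} {i : Fin n} (hi : i ∈ S)
    (h : ∀ i ∈ S, i - 1 ∈ S) (j : Fin n) : j ∈ S := by
  have key : ∀ k : ℕ, i - (k : Fin n) ∈ S := by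
    intro k
    induction k with
    | zero => simpa using hi
    | succ k ih => rw [Nat.cast_succ, ← sub_sub]; exact h _ ih
  have := key (i - j).val
  rwa [Fin.cast_val_eq_self, sub_sub_cancel] at this

/-- Among a nonempty set of vertices of out-degree one there is one whose out-neighbour lies
outside the set. -/
theorem exists_exit {o : Fin n → Bool} (hs : (sinks o).Nonempty) {U : Finset (Fin n)}
    (hU : U.Nonempty) (hmid : ∀ i ∈ U, o i = o (i - 1)) :
    ∃ i ∈ U, ∀ j, DArc o i j → j ∉ U := by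
  by_contra hcon
  push Not at hcon
  obtain ⟨q, hq⟩ := hs
  rw [mem_sinks] at hq
  obtain ⟨i, hi⟩ := hU
  cases hoi : o i with
  | true =>
    have hcl : ∀ k ∈ {k | k ∈ U ∧ o k = true}, k + 1 ∈ {k | k ∈ U ∧ o k = true} := by
      rintro k ⟨hk, hok⟩
      obtain ⟨j, hj, hjU⟩ := hcon k hk
      rcases hj with ⟨rfl, _⟩ | ⟨rfl, h⟩
      · refine ⟨hjU, ?_⟩
        rw [hmid _ hjU, add_sub_cancel_right, hok]
      · exfalso
        have := hmid _ hk
        rw [add_sub_cancel_right, h, hok] at this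
        exact absurd this (by simp)
    have := (mem_of_closed_succ (S := {k | k ∈ U ∧ o k = true}) ⟨hi, hoi⟩ hcl q).2
    rw [hq.1] at this
    exact absurd this (by simp)
  | false =>
    have hcl : ∀ k ∈ {k | k ∈ U ∧ o k = false}, k - 1 ∈ {k | k ∈ U ∧ o k = false} := by
      rintro k ⟨hk, hok⟩
      obtain ⟨j, hj, hjU⟩ := hcon k hk
      rcases hj with ⟨rfl, h⟩ | ⟨rfl, h⟩
      · exfalso
        rw [hok] at h
        exact absurd h (by simp)
      · rw [add_sub_cancel_right]
        exact ⟨hjU, h⟩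
    have := (mem_of_closed_pred (S := {k | k ∈ U ∧ o k = false}) ⟨hi, hoi⟩ hcl (q - 1)).2
    rw [hq.2] at this
    exact absurd this (by simp)

/-- All arcs of `o` not leaving `I` are present under the placement `π`. -/
def Base (o : Fin n → Bool) (π : Equiv.Perm (Fin n)) (I : Finset (Fin n))
    (G : Set (Fin n × Fin n)) : Prop :=
  I ⊆ sources o ∧ ∀ i j, DArc o i j → i ∉ I → (π i, π j) ∈ G

/-- A copy of the orientation, up to the out-arcs of at most `M` sources. -/
def Near (o : Fin n → Bool) (M : ℝ) (G : Set (Fin n × Fin n)) : Prop :=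
  ∃ (π : Equiv.Perm (Fin n)) (I : Finset (Fin n)), (I.card : ℝ) ≤ M ∧ Base o π I G

/-- A copy of the orientation. -/
def HasCopy (o : Fin n → Bool) (G : Set (Fin n × Fin n)) : Prop :=
  ∃ π : Equiv.Perm (Fin n), ∀ i j, DArc o i j → (π i, π j) ∈ G

theorem Near.mono_set {o : Fin n → Bool} {M : ℝ} : Mono (Near o M) := by
  rintro G G' hG ⟨π, I, h1, h2, h3⟩
  exact ⟨π, I, h1, h2, fun i j hij hi => hG (h3 i j hij hi)⟩

theorem HasCopy.mono_set {o : Fin n → Bool} : Mono (HasCopy o) := by
  rintro G G' hG ⟨π, h⟩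
  exact ⟨π, fun i j hij => hG (h i j hij)⟩

theorem hasCopy_of_near {o : Fin n → Bool} {M : ℝ} (hM : M < 1) {G : Set (Fin n × Fin n)}
    (h : Near o M G) : HasCopy o G := by
  obtain ⟨π, I, h1, h2, h3⟩ := h
  have : I.card < 1 := by exact_mod_cast h1.trans_lt hM
  have hI : I = ∅ := Finset.card_eq_zero.1 (by omega)
  subst hI
  exact ⟨π, fun i j hij => h3 i j hij (by simp)⟩

/-! ### Phase 1 -/

/-- State of phase 1: `N` is the number of vertices which are not yet placed. -/
def Q1 (o : Fin n → Bool) (N : ℕ) (G : Set (Fin n × Fin n)) : Prop :=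
  ∃ (π : Equiv.Perm (Fin n)) (U : Finset (Fin n)), (∀ i ∈ U, o i = o (i - 1)) ∧
    N = U.card + (sources o).card ∧
    ∀ i j, i ∉ U → i ∉ sources o → DArc o i j → j ∉ U ∧ (π i, π j) ∈ G

theorem Q1.mono_set {o : Fin n → Bool} {N : ℕ} : Mono (Q1 o N) := by
  rintro G G' hG ⟨π, U, h1, h2, h3⟩
  exact ⟨π, U, h1, h2, fun i j hi hs hij => ⟨(h3 i j hi hs hij).1, hG (h3 i j hi hs hij).2⟩⟩

omit [NeZero n] in
theorem mono_exists {Q : ℕ → Set (Fin n × Fin n) → Prop} (h : ∀ N, Mono (Q N)) (thr : ℕ) :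
    Mono (fun G => ∃ N ≤ thr, Q N G) := by
  rintro G G' hG ⟨N, hN, hQ⟩
  exact ⟨N, hN, h N G G' hG hQ⟩

theorem Q1_step {o : Fin n → Bool} (hs : (sinks o).Nonempty) (N : ℕ)
    (G : Set (Fin n × Fin n)) (hN : (sources o).card < N) (hQ : Q1 o N G) :
    ∃ A : Finset (Fin n), A.card = N ∧
      (∀ u ∈ A, ∃ v, Q1 o (N - 1) (insert (u, v) G)) ∧
      (∀ u ∉ A, ∃ v, Q1 o N (insert (u, v) G)) := by
  obtain ⟨π, U, hmid, hcard, harc⟩ := hQ
  have hUne : U.Nonempty := by
    rw [← Finset.card_pos]; omega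
  obtain ⟨i, hiU, hexit⟩ := exists_exit hs hUne hmid
  have hdisj : Disjoint U (sources o) := by
    rw [Finset.disjoint_left]
    intro k hk hks
    rw [mem_sources] at hks
    have := hmid k hk
    rw [hks.1, hks.2] at this
    exact absurd this (by simp)
  refine ⟨(U ∪ sources o).map π.toEmbedding, ?_, ?_, ?_⟩
  · rw [Finset.card_map, Finset.card_union_of_disjoint hdisj, hcard]
  · intro u hu
    rw [Finset.mem_map_equiv] at hu
    -- the out-neighbour of `i`
    have hi_mid := hmid i hiU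
    obtain ⟨k, hk, hkuniq⟩ : ∃ k, DArc o i k ∧ ∀ j, DArc o i j → j = k := by
      cases hoi : o i with
      | true =>
        refine ⟨i + 1, Or.inl ⟨rfl, hoi⟩, ?_⟩
        rintro j (⟨rfl, _⟩ | ⟨h1, h2⟩)
        · rfl
        · exfalso
          have : i - 1 = j := by rw [h1, add_sub_cancel_right]
          rw [this, h2, hoi] at hi_mid
          exact absurd hi_mid (by simp)
      | false =>
        refine ⟨i - 1, Or.inr ⟨(sub_add_cancel i 1).symm, by rw [← hi_mid, hoi]⟩, ?_⟩
        rintro j (⟨_, h1⟩ | ⟨h1, h2⟩)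
        · rw [hoi] at h1; exact absurd h1 (by simp)
        · rw [h1, add_sub_cancel_right]
    have hkU := hexit k hk
    have hks := not_source_of_arc hk
    set j := π.symm u with hj
    have hju : π j = u := by rw [hj, Equiv.apply_symm_apply]
    refine ⟨π k, (Equiv.swap i j).trans π, U.erase i, ?_, ?_, ?_⟩
    · exact fun l hl => hmid l (Finset.mem_of_mem_erase hl)
    · rw [Finset.card_erase_of_mem hiU]
      have := Finset.card_pos.2 hUne
      omega
    · intro a b ha has hab
      have hbs := not_source_of_arc hab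
      by_cases hai : a = i
      · subst hai
        have hb : b = k := hkuniq b hab
        subst hb
        refine ⟨fun h => hkU (Finset.mem_of_mem_erase h), ?_⟩
        have hba : b ≠ a := fun h => hkU (h ▸ hiU)
        have hbj : b ≠ j := by
          intro h
          rw [← h] at hu
          rcases Finset.mem_union.1 hu with h' | h'
          · exact hkU h'
          · exact hks h'
        simp only [Equiv.trans_apply, Equiv.swap_apply_left,
          Equiv.swap_apply_of_ne_of_ne hba hbj, hju]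
        exact Set.mem_insert _ _
      · have haU : a ∉ U := fun h => ha (Finset.mem_erase.2 ⟨hai, h⟩)
        obtain ⟨hbU, hG⟩ := harc a b haU has hab
        refine ⟨fun h => hbU (Finset.mem_of_mem_erase h), ?_⟩
        have haj : a ≠ j := by
          intro h
          rw [← h] at hu
          rcases Finset.mem_union.1 hu with h' | h'
          · exact haU h'
          · exact has h'
        have hbi : b ≠ i := fun h => hbU (h ▸ hiU)
        have hbj : b ≠ j := by
          intro h
          rw [← h] at hu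
          rcases Finset.mem_union.1 hu with h' | h'
          · exact hbU h'
          · exact hbs h'
        simp only [Equiv.trans_apply, Equiv.swap_apply_of_ne_of_ne hai haj,
          Equiv.swap_apply_of_ne_of_ne hbi hbj]
        exact Set.mem_insert_of_mem _ hG
  · intro u _
    exact ⟨u, Q1.mono_set _ _ (Set.subset_insert _ _) ⟨π, U, hmid, hcard, harc⟩⟩

/-! ### Phase 2 -/

/-- State of phase 2: the arcs of the vertices of out-degree one are present, the sources outside
`J` have their arc to the successor, the sources outside `I` have their arc to the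
predecessor. -/
def P2 (o : Fin n → Bool) (π : Equiv.Perm (Fin n)) (J I : Finset (Fin n))
    (G : Set (Fin n × Fin n)) : Prop :=
  (∀ i j, DArc o i j → i ∉ sources o → (π i, π j) ∈ G) ∧
  (∀ p ∈ sources o, p ∉ J → (π p, π (p + 1)) ∈ G) ∧
  (∀ p ∈ sources o, p ∉ I → (π p, π (p - 1)) ∈ G)

theorem P2.mono_set {o : Fin n → Bool} {π : Equiv.Perm (Fin n)} {J I : Finset (Fin n)} :
    Mono (P2 o π J I) := by
  rintro G G' hG ⟨h1, h2, h3⟩
  exact ⟨fun i j hij hi => hG (h1 i j hij hi), fun p hp hJ => hG (h2 p hp hJ),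
    fun p hp hI => hG (h3 p hp hI)⟩

/-- First half of phase 2. -/
def Q2a (o : Fin n → Bool) (N : ℕ) (G : Set (Fin n × Fin n)) : Prop :=
  ∃ (π : Equiv.Perm (Fin n)) (J : Finset (Fin n)), J ⊆ sources o ∧ J.card = N ∧
    P2 o π J (sources o) G

/-- Second half of phase 2. -/
def Q2b (o : Fin n → Bool) (m : ℕ) (N : ℕ) (G : Set (Fin n × Fin n)) : Prop :=
  ∃ (π : Equiv.Perm (Fin n)) (J I : Finset (Fin n)), J ⊆ sources o ∧ J.card ≤ m ∧
    I ⊆ sources o ∧ I.card = N ∧ P2 o π J I G

theorem Q2a.mono_set {o : Fin n → Bool} {N : ℕ} : Mono (Q2a o N) := by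
  rintro G G' hG ⟨π, J, h1, h2, h3⟩
  exact ⟨π, J, h1, h2, P2.mono_set _ _ hG h3⟩

theorem Q2b.mono_set {o : Fin n → Bool} {m N : ℕ} : Mono (Q2b o m N) := by
  rintro G G' hG ⟨π, J, I, h1, h2, h3, h4, h5⟩
  exact ⟨π, J, I, h1, h2, h3, h4, P2.mono_set _ _ hG h5⟩

theorem Q2a_step {o : Fin n → Bool} (N : ℕ) (G : Set (Fin n × Fin n))
    (hQ : Q2a o N G) : ∃ A : Finset (Fin n), A.card = N ∧
      (∀ u ∈ A, ∃ v, Q2a o (N - 1) (insert (u, v) G)) ∧
      (∀ u ∉ A, ∃ v, Q2a o N (insert (u, v) G)) := by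
  obtain ⟨π, J, hJ, hcard, hP⟩ := hQ
  refine ⟨J.map π.toEmbedding, by rw [Finset.card_map, hcard], ?_, ?_⟩
  · intro u hu
    rw [Finset.mem_map_equiv] at hu
    set p := π.symm u with hp
    have hpu : π p = u := by rw [hp, Equiv.apply_symm_apply]
    have hP' := P2.mono_set _ _ (Set.subset_insert (u, π (p + 1)) G) hP
    refine ⟨π (p + 1), π, J.erase p, (Finset.erase_subset _ _).trans hJ, ?_, hP'.1, ?_, hP'.2.2⟩
    · rw [Finset.card_erase_of_mem hu, hcard]
    · intro p' hp' hJ'
      by_cases h : p' = p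
      · rw [h, hpu]; exact Set.mem_insert _ _
      · exact hP'.2.1 p' hp' fun h' => hJ' (Finset.mem_erase.2 ⟨h, h'⟩)
  · intro u _
    exact ⟨u, Q2a.mono_set _ _ (Set.subset_insert _ _) ⟨π, J, hJ, hcard, hP⟩⟩

theorem Q2b_step {o : Fin n → Bool} {m : ℕ} (N : ℕ) (G : Set (Fin n × Fin n))
    (hQ : Q2b o m N G) : ∃ A : Finset (Fin n), A.card = N ∧
      (∀ u ∈ A, ∃ v, Q2b o m (N - 1) (insert (u, v) G)) ∧
      (∀ u ∉ A, ∃ v, Q2b o m N (insert (u, v) G)) := by
  obtain ⟨π, J, I, hJ, hm, hI, hcard, hP⟩ := hQ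
  refine ⟨I.map π.toEmbedding, by rw [Finset.card_map, hcard], ?_, ?_⟩
  · intro u hu
    rw [Finset.mem_map_equiv] at hu
    set p := π.symm u with hp
    have hpu : π p = u := by rw [hp, Equiv.apply_symm_apply]
    have hP' := P2.mono_set _ _ (Set.subset_insert (u, π (p - 1)) G) hP
    refine ⟨π (p - 1), π, J, I.erase p, hJ, hm, (Finset.erase_subset _ _).trans hI, ?_, hP'.1,
      hP'.2.1, ?_⟩
    · rw [Finset.card_erase_of_mem hu, hcard]
    · intro p' hp' hI'
      by_cases h : p' = p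
      · rw [h, hpu]; exact Set.mem_insert _ _
      · exact hP'.2.2 p' hp' fun h' => hI' (Finset.mem_erase.2 ⟨h, h'⟩)
  · intro u _
    exact ⟨u, Q2b.mono_set _ _ (Set.subset_insert _ _) ⟨π, J, I, hJ, hm, hI, hcard, hP⟩⟩

theorem Q2a_of_Q1 {o : Fin n → Bool} {G : Set (Fin n × Fin n)}
    (h : ∃ N ≤ (sources o).card, Q1 o N G) : Q2a o (sources o).card G := by
  obtain ⟨N, hN, π, U, hmid, hcard, harc⟩ := h
  have hU : U = ∅ := Finset.card_eq_zero.1 (by omega)
  subst hU
  refine ⟨π, sources o, subset_rfl, rfl, ?_, ?_, ?_⟩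
  · exact fun i j hij hi => (harc i j (by simp) hi hij).2
  · exact fun p hp hp' => absurd hp hp'
  · exact fun p hp hp' => absurd hp hp'

theorem Q2b_of_Q2a {o : Fin n → Bool} {m : ℕ} {G : Set (Fin n × Fin n)}
    (h : ∃ N ≤ m, Q2a o N G) : Q2b o m (sources o).card G := by
  obtain ⟨N, hN, π, J, hJ, hcard, hP⟩ := h
  exact ⟨π, J, sources o, hJ, by omega, subset_rfl, rfl, hP⟩

theorem near_of_Q2b {o : Fin n → Bool} {m m' : ℕ} {G : Set (Fin n × Fin n)}
    (h : ∃ N ≤ m', Q2b o m N G) : Near o ((m : ℝ) + m') G := by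
  obtain ⟨N, hN, π, J, I, hJ, hm, hI, hcard, h1, h2, h3⟩ := h
  refine ⟨π, J ∪ I, ?_, Finset.union_subset hJ hI, ?_⟩
  · have := Finset.card_union_le J I
    have h' : (J ∪ I).card ≤ m + m' := by omega
    exact_mod_cast h'
  · intro i j hij hi
    rw [Finset.mem_union, not_or] at hi
    by_cases his : i ∈ sources o
    · rcases arc_source hij with rfl | rfl
      · exact h2 i his hi.1
      · exact h3 i his hi.2
    · exact h1 i j hij his

end Pool.Agent.SemiRandom
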