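import Mathlib

/-!
# Elementary probability on finite product spaces
-/

namespace Pool.Agent.SemiRandom

open Finset

variable {V : Type} [Fintype V]

theorem sum_fin_cons {T : ℕ} (f : (Fin (T + 1) → V) → ℝ) :
    ∑ ω : Fin (T + 1) → V, f ω = ∑ u : V, ∑ ω : Fin T → V, f (Fin.cons u ω) := by
  rw [← (Fin.consEquiv (fun _ : Fin (T + 1) => V)).sum_comp, Fintype.sum_prod_type]
  rfl

/-- Variance bound for functions with bounded differences. -/
theorem variance_bound [Nonempty V] {c : ℝ} (k : ℕ) :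
    ∀ f : (Fin k → V) → ℝ,
      (∀ (ω : Fin k → V) (t : Fin k) (u : V), |f (Function.update ω t u) - f ω| ≤ c) →
      (Fintype.card V : ℝ) ^ k * ∑ ω, f ω ^ 2 - (∑ ω, f ω) ^ 2 ≤
        k * c ^ 2 * ((Fintype.card V : ℝ) ^ k) ^ 2 := by
  induction k with
  | zero =>
    intro f _
    simp
  | succ k ih =>
    intro f hf
    set n : ℝ := (Fintype.card V : ℝ) with hn
    have hn0 : 0 < n := by rw [hn]; exact_mod_cast Fintype.card_pos
    set a : V → ℝ := fun u => ∑ ω : Fin k → V, f (Fin.cons u ω) with ha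
    set b : V → ℝ := fun u => ∑ ω : Fin k → V, f (Fin.cons u ω) ^ 2 with hb
    have h1 : ∑ ω, f ω = ∑ u, a u := sum_fin_cons f
    have h2 : ∑ ω, f ω ^ 2 = ∑ u, b u := sum_fin_cons fun ω => f ω ^ 2
    have hih : ∀ u, n ^ k * b u ≤ a u ^ 2 + k * c ^ 2 * (n ^ k) ^ 2 := by
      intro u
      have := ih (fun ω => f (Fin.cons u ω)) (fun ω t v => by
        have h := hf (Fin.cons u ω) t.succ v
        rwa [← Fin.cons_update] at h)
      linarith
    obtain ⟨u₀⟩ := ‹Nonempty V›
    have hdev : ∀ u, |a u - a u₀| ≤ c * n ^ k := by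
      intro u
      simp only [ha]
      rw [← Finset.sum_sub_distrib]
      refine (Finset.abs_sum_le_sum_abs _ _).trans ?_
      have hterm : ∀ ω ∈ (Finset.univ : Finset (Fin k → V)),
          |f (Fin.cons u ω) - f (Fin.cons u₀ ω)| ≤ c := by
        intro ω _
        have h := hf (Fin.cons u₀ ω : Fin (k + 1) → V) 0 u
        rwa [Fin.update_cons_zero] at h
      refine (Finset.sum_le_sum hterm).trans (le_of_eq ?_)
      rw [Finset.sum_const, Finset.card_univ, Fintype.card_fun, Fintype.card_fin, nsmul_eq_mul]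
      push_cast
      ring
    have hvar : n * ∑ u, a u ^ 2 - (∑ u, a u) ^ 2 ≤ n * ∑ u, (a u - a u₀) ^ 2 := by
      have hexp : ∑ u, (a u - a u₀) ^ 2 =
          ∑ u, a u ^ 2 - 2 * a u₀ * ∑ u, a u + n * a u₀ ^ 2 := by
        have : ∀ u, (a u - a u₀) ^ 2 = a u ^ 2 - 2 * a u₀ * a u + a u₀ ^ 2 := fun u => by ring
        simp only [this]
        rw [Finset.sum_add_distrib, Finset.sum_sub_distrib, ← Finset.mul_sum, Finset.sum_const,
          Finset.card_univ, nsmul_eq_mul]
      rw [hexp]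
      nlinarith [sq_nonneg (∑ u, a u - n * a u₀)]
    have hdev2 : ∑ u, (a u - a u₀) ^ 2 ≤ n * (c * n ^ k) ^ 2 := by
      have hterm : ∀ u ∈ (Finset.univ : Finset V), (a u - a u₀) ^ 2 ≤ (c * n ^ k) ^ 2 := by
        intro u _
        rw [← sq_abs]
        exact pow_le_pow_left₀ (abs_nonneg _) (hdev u) 2
      refine (Finset.sum_le_sum hterm).trans (le_of_eq ?_)
      rw [Finset.sum_const, Finset.card_univ, nsmul_eq_mul]
    have hsumb : n ^ k * ∑ u, b u ≤ ∑ u, a u ^ 2 + n * (k * c ^ 2 * (n ^ k) ^ 2) := by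
      rw [Finset.mul_sum]
      refine (Finset.sum_le_sum fun u _ => hih u).trans (le_of_eq ?_)
      rw [Finset.sum_add_distrib, Finset.sum_const, Finset.card_univ, nsmul_eq_mul]
    rw [h1, h2]
    push_cast
    have e1 : n ^ (k + 1) * ∑ u, b u = n * (n ^ k * ∑ u, b u) := by ring
    have e2 := mul_le_mul_of_nonneg_left hsumb hn0.le
    have e3 := mul_le_mul_of_nonneg_left hdev2 hn0.le
    rw [e1]
    have e4 : n * (n * (c * n ^ k) ^ 2) = c ^ 2 * (n ^ (k + 1)) ^ 2 := by ring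
    have e5 : n * (∑ u, a u ^ 2 + n * (k * c ^ 2 * (n ^ k) ^ 2)) =
        n * ∑ u, a u ^ 2 + k * c ^ 2 * (n ^ (k + 1)) ^ 2 := by ring
    nlinarith

open Classical in
/-- Chebyshev. -/
theorem chebyshev {α : Type} [Fintype α] [Nonempty α] (f : α → ℝ) {e W M : ℝ}
    (he : ∑ ω, f ω ≤ e * (Fintype.card α : ℝ)) (hM : e < M)
    (hW : (Fintype.card α : ℝ) * ∑ ω, f ω ^ 2 - (∑ ω, f ω) ^ 2 ≤ W * (Fintype.card α : ℝ) ^ 2) :
    (∑ ω, if M < f ω then (1 : ℝ) else 0) ≤ W / (M - e) ^ 2 * (Fintype.card α : ℝ) := by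
  set N : ℝ := (Fintype.card α : ℝ) with hN
  have hN0 : 0 < N := by rw [hN]; exact_mod_cast Fintype.card_pos
  set μ : ℝ := (∑ ω, f ω) / N with hμ
  have hμe : μ ≤ e := by rw [hμ, div_le_iff₀ hN0]; exact he
  have hS : ∑ ω, f ω = μ * N := by rw [hμ]; field_simp
  have hd : 0 < M - e := by linarith
  have key : (∑ ω, if M < f ω then (1 : ℝ) else 0) * (M - e) ^ 2 ≤ ∑ ω, (f ω - μ) ^ 2 := by
    rw [Finset.sum_mul]
    refine Finset.sum_le_sum fun ω _ => ?_
    split_ifs with h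
    · rw [one_mul]
      exact pow_le_pow_left₀ hd.le (by linarith) 2
    · rw [zero_mul]; positivity
  have hexp : ∑ ω, (f ω - μ) ^ 2 = ∑ ω, f ω ^ 2 - μ ^ 2 * N := by
    have : ∀ ω, (f ω - μ) ^ 2 = f ω ^ 2 - 2 * μ * f ω + μ ^ 2 := fun ω => by ring
    simp only [this]
    rw [Finset.sum_add_distrib, Finset.sum_sub_distrib, ← Finset.mul_sum, Finset.sum_const,
      Finset.card_univ, nsmul_eq_mul, hS]
    ring
  have hW' : ∑ ω, (f ω - μ) ^ 2 ≤ W * N := by
    rw [hexp]
    rw [hS] at hW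
    have : N * (∑ ω, f ω ^ 2 - μ ^ 2 * N) ≤ N * (W * N) := by nlinarith
    exact le_of_mul_le_mul_left this hN0
  rw [div_mul_eq_mul_div, le_div_iff₀ (by positivity)]
  exact key.trans hW'

open Classical in
/-- Markov. -/
theorem markov {α : Type} [Fintype α] (f : α → ℝ) (hf : ∀ ω, 0 ≤ f ω) {M : ℝ} (hM : 0 < M) :
    (∑ ω, if M < f ω then (1 : ℝ) else 0) ≤ (∑ ω, f ω) / M := by
  rw [le_div_iff₀ hM, Finset.sum_mul]
  refine Finset.sum_le_sum fun ω _ => ?_
  split_ifs with h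
  · rw [one_mul]; exact h.le
  · rw [zero_mul]; exact hf ω

open Classical in
/-- Second moment method: the event that no `Z γ` is `1`. -/
theorem second_moment {α Γ : Type} [Fintype α] [Nonempty α] [Fintype Γ] (Z : Γ → α → Prop)
    {r : ℝ} (hr : 0 < r) (hL : 0 < Fintype.card Γ)
    (h1 : ∀ γ, (∑ ω, if Z γ ω then (1 : ℝ) else 0) = r * (Fintype.card α : ℝ))
    (h2 : ∀ γ γ', γ ≠ γ' → (∑ ω, if Z γ ω ∧ Z γ' ω then (1 : ℝ) else 0) ≤
      r ^ 2 * (Fintype.card α : ℝ)) :
    (∑ ω, if ∀ γ, ¬ Z γ ω then (1 : ℝ) else 0) ≤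
      1 / ((Fintype.card Γ : ℝ) * r) * (Fintype.card α : ℝ) := by
  set N : ℝ := (Fintype.card α : ℝ) with hN
  have hN0 : 0 < N := by rw [hN]; exact_mod_cast Fintype.card_pos
  set L : ℝ := (Fintype.card Γ : ℝ) with hLdef
  have hL0 : 0 < L := by rw [hLdef]; exact_mod_cast hL
  set f : α → ℝ := fun ω => ∑ γ, if Z γ ω then (1 : ℝ) else 0 with hf
  have hS1 : ∑ ω, f ω = L * r * N := by
    simp only [hf]
    rw [Finset.sum_comm]
    simp only [h1]
    rw [Finset.sum_const, Finset.card_univ, nsmul_eq_mul]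
    ring
  have hS2 : ∑ ω, f ω ^ 2 ≤ L * r * N + L ^ 2 * r ^ 2 * N := by
    have hsq : ∀ ω, f ω ^ 2 = ∑ γ, ∑ γ', if Z γ ω ∧ Z γ' ω then (1 : ℝ) else 0 := by
      intro ω
      simp only [hf]
      rw [sq, Finset.sum_mul_sum]
      refine Finset.sum_congr rfl fun γ _ => Finset.sum_congr rfl fun γ' _ => ?_
      by_cases ha : Z γ ω <;> by_cases hb : Z γ' ω <;> simp [ha, hb]
    simp only [hsq]
    rw [Finset.sum_comm]
    have hrow : ∀ γ, (∑ ω, ∑ γ', if Z γ ω ∧ Z γ' ω then (1 : ℝ) else 0) ≤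
        r * N + L * (r ^ 2 * N) := by
      intro γ
      rw [Finset.sum_comm]
      rw [← Finset.add_sum_erase _ _ (Finset.mem_univ γ)]
      refine add_le_add ?_ ?_
      · simp only [and_self]
        exact (h1 γ).le
      · refine (Finset.sum_le_sum fun γ' hγ' =>
          h2 γ γ' (Finset.ne_of_mem_erase hγ').symm).trans ?_
        rw [Finset.sum_const, nsmul_eq_mul]
        refine mul_le_mul_of_nonneg_right ?_ (by positivity)
        rw [hLdef]
        have := Finset.card_erase_le (s := (Finset.univ : Finset Γ)) (a := γ)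
        rw [Finset.card_univ] at this
        exact_mod_cast this
    refine (Finset.sum_le_sum fun γ _ => hrow γ).trans (le_of_eq ?_)
    rw [Finset.sum_const, Finset.card_univ, nsmul_eq_mul, ← hLdef]
    ring
  have hexp : ∑ ω, (f ω - L * r) ^ 2 ≤ L * r * N := by
    have : ∀ ω, (f ω - L * r) ^ 2 = f ω ^ 2 - 2 * (L * r) * f ω + (L * r) ^ 2 := fun ω => by ring
    simp only [this]
    rw [Finset.sum_add_distrib, Finset.sum_sub_distrib, ← Finset.mul_sum, Finset.sum_const,
      Finset.card_univ, nsmul_eq_mul, hS1]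
    nlinarith
  have key : (∑ ω, if ∀ γ, ¬ Z γ ω then (1 : ℝ) else 0) * (L * r) ^ 2 ≤
      ∑ ω, (f ω - L * r) ^ 2 := by
    rw [Finset.sum_mul]
    refine Finset.sum_le_sum fun ω _ => ?_
    split_ifs with h
    · have : f ω = 0 := by
        simp only [hf]
        exact Finset.sum_eq_zero fun γ _ => by simp [h γ]
      rw [this]
      nlinarith
    · rw [zero_mul]; positivity
  have hLr : 0 < L * r := by positivity
  have h3 := key.trans hexp
  rw [div_mul_eq_mul_div, one_mul, le_div_iff₀ hLr]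
  have : (∑ ω, if ∀ γ, ¬ Z γ ω then (1 : ℝ) else 0) * (L * r) * (L * r) ≤ N * (L * r) := by
    nlinarith
  exact le_of_mul_le_mul_right this hLr

/-! ### Hitting probabilities -/

open Classical in
theorem sum_miss {T : ℕ} (S : Finset V) :
    (∑ ω : Fin T → V, if ∀ t, ω t ∈ S then (1 : ℝ) else 0) = (S.card : ℝ) ^ T := by
  rw [← Finset.sum_filter, Finset.sum_const, nsmul_eq_mul, mul_one]
  have : (Finset.univ.filter fun ω : Fin T → V => ∀ t, ω t ∈ S) =
      Fintype.piFinset fun _ : Fin T => S := by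
    ext ω
    simp [Fintype.mem_piFinset]
  rw [this, Fintype.card_piFinset_const]
  push_cast
  rfl

open Classical in
theorem sum_hit {T : ℕ} (v : V) :
    (∑ ω : Fin T → V, if ∃ t, ω t = v then (1 : ℝ) else 0) =
      (Fintype.card V : ℝ) ^ T - ((Fintype.card V : ℝ) - 1) ^ T := by
  have h1 : ∀ ω : Fin T → V, (if ∃ t, ω t = v then (1 : ℝ) else 0) =
      1 - if ∀ t, ω t ∈ (Finset.univ.erase v : Finset V) then (1 : ℝ) else 0 := by
    intro ω
    by_cases h : ∃ t, ω t = v
    · have h' : ¬ ∀ t, ω t ∈ (Finset.univ.erase v : Finset V) := by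
        intro h''
        obtain ⟨t, ht⟩ := h
        exact (Finset.ne_of_mem_erase (h'' t)) ht
      rw [if_pos h, if_neg h', sub_zero]
    · have h' : ∀ t, ω t ∈ (Finset.univ.erase v : Finset V) := by
        intro t
        exact Finset.mem_erase.2 ⟨fun h'' => h ⟨t, h''⟩, Finset.mem_univ _⟩
      rw [if_neg h, if_pos h', sub_self]
  simp only [h1]
  rw [Finset.sum_sub_distrib, sum_miss, Finset.sum_const, Finset.card_univ, Fintype.card_fun,
    Fintype.card_fin, nsmul_eq_mul, mul_one, Finset.card_erase_of_mem (Finset.mem_univ v),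
    Finset.card_univ]
  have : 1 ≤ Fintype.card V := Fintype.card_pos_iff.2 ⟨v⟩
  push_cast [Nat.cast_sub this]
  rfl

open Classical in
theorem sum_hit_hit {T : ℕ} {v w : V} (hvw : v ≠ w) :
    (∑ ω : Fin T → V, if (∃ t, ω t = v) ∧ (∃ t, ω t = w) then (1 : ℝ) else 0) =
      (Fintype.card V : ℝ) ^ T - 2 * ((Fintype.card V : ℝ) - 1) ^ T +
        ((Fintype.card V : ℝ) - 2) ^ T := by
  have h1 : ∀ ω : Fin T → V, (if (∃ t, ω t = v) ∧ (∃ t, ω t = w) then (1 : ℝ) else 0) =
      (if ∃ t, ω t = v then (1 : ℝ) else 0) + (if ∃ t, ω t = w then (1 : ℝ) else 0) - 1 +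
      if ∀ t, ω t ∈ ((Finset.univ.erase v).erase w : Finset V) then (1 : ℝ) else 0 := by
    intro ω
    have hiff : (∀ t, ω t ∈ ((Finset.univ.erase v).erase w : Finset V)) ↔
        (¬ ∃ t, ω t = v) ∧ ¬ ∃ t, ω t = w := by
      simp only [Finset.mem_erase, Finset.mem_univ, and_true, not_exists]
      constructor
      · intro h; exact ⟨fun t => (h t).2, fun t => (h t).1⟩
      · intro h t; exact ⟨h.2 t, h.1 t⟩
    by_cases ha : ∃ t, ω t = v <;> by_cases hb : ∃ t, ω t = w <;>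
      simp only [hiff, ha, hb, and_true, and_false, and_self, not_true, not_false_iff, if_true,
        if_false] <;> norm_num
  simp only [h1]
  rw [Finset.sum_add_distrib, Finset.sum_sub_distrib, Finset.sum_add_distrib, sum_hit, sum_hit,
    sum_miss, Finset.sum_const, Finset.card_univ, Fintype.card_fun, Fintype.card_fin,
    nsmul_eq_mul, mul_one]
  have hw : w ∈ (Finset.univ.erase v : Finset V) :=
    Finset.mem_erase.2 ⟨hvw.symm, Finset.mem_univ _⟩
  rw [Finset.card_erase_of_mem hw, Finset.card_erase_of_mem (Finset.mem_univ v),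
    Finset.card_univ]
  have h2 : 2 ≤ Fintype.card V := by
    have := Finset.card_le_univ ({v, w} : Finset V)
    rwa [Finset.card_pair hvw] at this
  have h3 : ((Fintype.card V - 1 - 1 : ℕ) : ℝ) = (Fintype.card V : ℝ) - 2 := by
    rw [Nat.sub_sub, Nat.cast_sub h2]; norm_num
  rw [h3]
  push_cast
  ring

end Pool.Agent.SemiRandom
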