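import Pool.Agent.SemiRandom.Orient
import Pool.Agent.SemiRandom.Prob

/-!
# The repair phase
-/

namespace Pool.Agent.SemiRandom

open Finset

variable {n : ℕ} [NeZero n]

/-- The sink `q` is a gadget which can repair the source `p ∈ I`. -/
def Gad (o : Fin n → Bool) (π : Equiv.Perm (Fin n)) (I : Finset (Fin n))
    (G : Set (Fin n × Fin n)) (p q : Fin n) : Prop :=
  q ∈ sinks o ∧ q + 1 ∉ I ∧ q - 1 ∉ I ∧ (π q, π (p + 1)) ∈ G ∧ (π q, π (p - 1)) ∈ G ∧
    (π (q - 1), π p) ∈ G ∧ (π (q + 1), π p) ∈ G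

theorem source_ne_sink {o : Fin n → Bool} {p q : Fin n} (hp : p ∈ sources o)
    (hq : q ∈ sinks o) : p ≠ q := by
  rintro rfl
  rw [mem_sources] at hp
  rw [mem_sinks, hp.1] at hq
  exact absurd hq.1 (by simp)

/-- One repair. -/
theorem repair_one {o : Fin n → Bool} {π : Equiv.Perm (Fin n)} {I : Finset (Fin n)}
    {G : Set (Fin n × Fin n)} (hB : Base o π I G) {p q : Fin n} (hp : p ∈ I)
    (hg : Gad o π I G p q) :
    Base o ((Equiv.swap p q).trans π) (I.erase p) G ∧
      ∀ p' ∈ I.erase p, ∀ q', q' ≠ q → Gad o π I G p' q' →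
        Gad o ((Equiv.swap p q).trans π) (I.erase p) G p' q' := by
  obtain ⟨hI, harc⟩ := hB
  obtain ⟨hq, hq1, hq2, g1, g2, g3, g4⟩ := hg
  have hps := hI hp
  have hpq : p ≠ q := source_ne_sink hps hq
  have hp1s := not_source_of_arc (source_arc_succ hps)
  have hp2s := not_source_of_arc (source_arc_pred hps)
  have hp1p : p + 1 ≠ p := fun h => hp1s (h.symm ▸ hps)
  have hp2p : p - 1 ≠ p := fun h => hp2s (h.symm ▸ hps)
  have hp1q : p + 1 ≠ q := fun h => hq2 (by rw [← h, add_sub_cancel_right]; exact hp)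
  have hp2q : p - 1 ≠ q := fun h => hq1 (by rw [← h, sub_add_cancel]; exact hp)
  refine ⟨⟨(Finset.erase_subset _ _).trans hI, ?_⟩, ?_⟩
  · intro i j hij hi
    have hjs := not_source_of_arc hij
    have his := not_sink_of_arc hij
    have hjp : j ≠ p := fun h => hjs (h ▸ hps)
    have hiq : i ≠ q := fun h => his (h ▸ hq)
    by_cases hip : i = p
    · subst hip
      rcases arc_source hij with rfl | rfl
      · simpa only [Equiv.trans_apply, Equiv.swap_apply_left,
          Equiv.swap_apply_of_ne_of_ne hp1p hp1q] using g1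
      · simpa only [Equiv.trans_apply, Equiv.swap_apply_left,
          Equiv.swap_apply_of_ne_of_ne hp2p hp2q] using g2
    · have hiI : i ∉ I := fun h => hi (Finset.mem_erase.2 ⟨hip, h⟩)
      by_cases hjq : j = q
      · subst hjq
        rcases arc_sink hij with rfl | rfl
        · simpa only [Equiv.trans_apply, Equiv.swap_apply_right,
            Equiv.swap_apply_of_ne_of_ne hip hiq] using g3
        · simpa only [Equiv.trans_apply, Equiv.swap_apply_right,
            Equiv.swap_apply_of_ne_of_ne hip hiq] using g4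
      · simpa only [Equiv.trans_apply, Equiv.swap_apply_of_ne_of_ne hip hiq,
          Equiv.swap_apply_of_ne_of_ne hjp hjq] using harc i j hij hiI
  · intro p' hp' q' hq'q hg'
    obtain ⟨hq', hq1', hq2', g1', g2', g3', g4'⟩ := hg'
    have hp'p := Finset.ne_of_mem_erase hp'
    have hp'I := Finset.mem_of_mem_erase hp'
    have hp's := hI hp'I
    have hp'q : p' ≠ q := source_ne_sink hp's hq
    have hq'p : q' ≠ p := (source_ne_sink hps hq').symm
    have a1 : p' + 1 ≠ p := fun h => not_source_of_arc (source_arc_succ hp's) (h ▸ hps)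
    have a2 : p' - 1 ≠ p := fun h => not_source_of_arc (source_arc_pred hp's) (h ▸ hps)
    have a3 : p' + 1 ≠ q := fun h => hq2 (by rw [← h, add_sub_cancel_right]; exact hp'I)
    have a4 : p' - 1 ≠ q := fun h => hq1 (by rw [← h, sub_add_cancel]; exact hp'I)
    have b1 : q' + 1 ≠ p := fun h => hq1' (h ▸ hp)
    have b2 : q' - 1 ≠ p := fun h => hq2' (h ▸ hp)
    have b3 : q' + 1 ≠ q := fun h => not_sink_of_arc (sink_arc_succ hq') (h ▸ hq)
    have b4 : q' - 1 ≠ q := fun h => not_sink_of_arc (sink_arc_pred hq') (h ▸ hq)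
    refine ⟨hq', fun h => hq1' (Finset.mem_of_mem_erase h),
      fun h => hq2' (Finset.mem_of_mem_erase h), ?_, ?_, ?_, ?_⟩
    · simpa only [Equiv.trans_apply, Equiv.swap_apply_of_ne_of_ne hq'p hq'q,
        Equiv.swap_apply_of_ne_of_ne a1 a3] using g1'
    · simpa only [Equiv.trans_apply, Equiv.swap_apply_of_ne_of_ne hq'p hq'q,
        Equiv.swap_apply_of_ne_of_ne a2 a4] using g2'
    · simpa only [Equiv.trans_apply, Equiv.swap_apply_of_ne_of_ne b2 b4,
        Equiv.swap_apply_of_ne_of_ne hp'p hp'q] using g3'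
    · simpa only [Equiv.trans_apply, Equiv.swap_apply_of_ne_of_ne b1 b3,
        Equiv.swap_apply_of_ne_of_ne hp'p hp'q] using g4'

/-- Simultaneous repairs. -/
theorem repair_many {o : Fin n → Bool} {G : Set (Fin n × Fin n)} (q : Fin n → Fin n)
    (S : Finset (Fin n)) : ∀ (π : Equiv.Perm (Fin n)) (I : Finset (Fin n)), Base o π I G →
      S ⊆ I → Set.InjOn q S → (∀ p ∈ S, Gad o π I G p (q p)) →
      ∃ π', Base o π' (I \ S) G := by
  induction S using Finset.induction_on with
  | empty =>
    intro π I hB _ _ _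
    exact ⟨π, by rwa [Finset.sdiff_empty]⟩
  | insert p S hpS ih =>
    intro π I hB hSI hinj hg
    have hpI : p ∈ I := hSI (Finset.mem_insert_self _ _)
    obtain ⟨hB', hg'⟩ := repair_one hB hpI (hg p (Finset.mem_insert_self _ _))
    obtain ⟨π', hπ'⟩ := ih ((Equiv.swap p (q p)).trans π) (I.erase p) hB'
      (fun x hx => Finset.mem_erase.2 ⟨fun h => hpS (h ▸ hx), hSI (Finset.mem_insert_of_mem hx)⟩)
      (hinj.mono (by intro x hx; exact Finset.mem_insert_of_mem hx))
      (fun p' hp' => hg' p' (Finset.mem_erase.2 ⟨fun h => hpS (h ▸ hp'),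
        hSI (Finset.mem_insert_of_mem hp')⟩) (q p')
        (fun h => hpS (by
          have := hinj (Finset.mem_coe.2 (Finset.mem_insert_of_mem hp'))
            (Finset.mem_coe.2 (Finset.mem_insert_self _ _)) h
          exact this ▸ hp'))
        (hg p' (Finset.mem_insert_of_mem hp')))
    refine ⟨π', ?_⟩
    have : I \ insert p S = I.erase p \ S := by
      ext x
      simp only [Finset.mem_sdiff, Finset.mem_insert, Finset.mem_erase]
      tauto
    rw [this]
    exact hπ'

end Pool.Agent.SemiRandom
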