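import Pool.Agent.SemiRandom.RepairProb

/-!
# The repair phase as a phase of the game
-/

namespace Pool.Agent.SemiRandom

open Finset

variable {n : ℕ} [NeZero n]

/-- The gadgets available for the set `I` of unfinished sources. -/
def gadgets (o : Fin n → Bool) (I : Finset (Fin n)) : Finset (Fin n) :=
  (sinks o).filter fun q => q + 1 ∉ I ∧ q - 1 ∉ I

theorem mem_gadgets {o : Fin n → Bool} {I : Finset (Fin n)} {q : Fin n} :
    q ∈ gadgets o I ↔ q ∈ sinks o ∧ q + 1 ∉ I ∧ q - 1 ∉ I := by
  simp [gadgets]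

theorem card_gadgets (o : Fin n → Bool) (I : Finset (Fin n)) :
    (sinks o).card ≤ (gadgets o I).card + 2 * I.card := by
  have h : sinks o ⊆ gadgets o I ∪ (I.image (fun p => p - 1) ∪ I.image (fun p => p + 1)) := by
    intro q hq
    by_cases h1 : q + 1 ∈ I
    · refine Finset.mem_union_right _ (Finset.mem_union_left _ (Finset.mem_image.2 ⟨q + 1, h1, ?_⟩))
      rw [add_sub_cancel_right]
    · by_cases h2 : q - 1 ∈ I
      · refine Finset.mem_union_right _ (Finset.mem_union_right _
          (Finset.mem_image.2 ⟨q - 1, h2, ?_⟩))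
        rw [sub_add_cancel]
      · exact Finset.mem_union_left _ (Finset.mem_filter.2 ⟨hq, h1, h2⟩)
  have h1 := Finset.card_le_card h
  have h2 := Finset.card_union_le (gadgets o I)
    (I.image (fun p => p - 1) ∪ I.image (fun p => p + 1))
  have h3 := Finset.card_union_le (I.image (fun p => p - 1)) (I.image (fun p => p + 1))
  have h4 := Finset.card_image_le (s := I) (f := fun p => p - 1)
  have h5 := Finset.card_image_le (s := I) (f := fun p => p + 1)
  omega

/-- The relevant vertices of the gadget `q` in the four quarters. -/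
def gadVert (π : Equiv.Perm (Fin n)) (q : Fin n) : Fin 4 → Fin n :=
  ![π q, π q, π (q - 1), π (q + 1)]

/-- The vertices they have to be joined to in order to repair `p`. -/
def gadTarget (π : Equiv.Perm (Fin n)) (p : Fin n) : Fin 4 → Fin n :=
  ![π (p + 1), π (p - 1), π p, π p]

theorem gadVert_injective (π : Equiv.Perm (Fin n)) (j : Fin 4) :
    Function.Injective fun q => gadVert π q j := by
  intro q q' h
  fin_cases j
  · exact π.injective h
  · exact π.injective h
  · exact sub_left_injective (π.injective h)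
  · exact add_left_injective 1 (π.injective h)

theorem loss_repair {o : Fin n → Bool} {T : ℕ} {M M' e b : ℝ} {G : Set (Fin n × Fin n)}
    (hM' : 0 ≤ M') (hb0 : 0 ≤ b) (hs : 3 * M < (sinks o).card) (hρ : 0 < rho (Fin n) T)
    (he : M ^ 2 / (((sinks o).card - 3 * M) * rho (Fin n) T ^ 4) ≤ e)
    (hprob : ∀ (I : Finset (Fin n)) (L : ℕ) (u : Fin 4 → I × Fin L → Fin n), 0 < L →
      (∀ j, Function.Injective (u j)) → (Fintype.card I : ℝ) / ((L : ℝ) * rho (Fin n) T ^ 4) ≤ e →
      (({ω | M' < unsat u ω} : Set (Fin (4 * T) → Fin n)).ncard : ℝ) ≤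
        b * (n : ℝ) ^ (4 * T))
    (hG : Near o M G) : loss (Near o M') (4 * T) G ≤ b := by
  classical
  obtain ⟨π, I, hIM, hB⟩ := hG
  rcases Nat.eq_zero_or_pos I.card with hI0 | hIpos
  · have hN : Near o M' G := ⟨π, I, by rw [hI0]; simpa using hM', hB⟩
    rw [loss_eq_zero_of_goal Near.mono_set _ hN]
    exact hb0
  set m := I.card with hm
  set 𝒢 := gadgets o I with h𝒢
  set L := 𝒢.card / m with hL
  have hcard : (sinks o).card ≤ 𝒢.card + 2 * m := card_gadgets o I
  have hmR : (m : ℝ) ≤ M := hIM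
  have hm1 : (1 : ℝ) ≤ m := by exact_mod_cast hIpos
  have h3m : 3 * m < (sinks o).card := by
    have : (3 : ℝ) * m < (sinks o).card := by linarith
    exact_mod_cast this
  have hLpos : 0 < L := Nat.div_pos (by omega) hIpos
  have hLm : L * m ≤ 𝒢.card := Nat.div_mul_le_self _ _
  have hLm' : (𝒢.card : ℝ) < L * m + m := by
    have := Nat.lt_div_mul_add (a := 𝒢.card) hIpos
    exact_mod_cast this
  -- choice of gadgets
  obtain ⟨φ⟩ : Nonempty ((I × Fin L) ↪ 𝒢) := by
    refine Function.Embedding.nonempty_of_card_le ?_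
    rw [Fintype.card_prod, Fintype.card_fin, Fintype.card_coe, Fintype.card_coe, mul_comm]
    exact hLm
  set u : Fin 4 → I × Fin L → Fin n := fun j γ => gadVert π (φ γ) j with hu
  set tg : Fin 4 → I × Fin L → Fin n := fun j γ => gadTarget π γ.1 j with htg
  have huinj : ∀ j, Function.Injective (u j) := by
    intro j γ γ' h
    exact φ.injective (Subtype.ext (gadVert_injective π j h))
  set K : Fin 4 → Fin n → Fin n := fun j => Function.extend (u j) (tg j) (fun _ => 0) with hK
  set κ : Fin (4 * T) → Fin n → Fin n := fun t v => K (finProdFinEquiv.symm t).1 v with hκ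
  have harcs : ∀ (ω : Fin (4 * T) → Fin n) (γ : I × Fin L), Succ4 u γ ω →
      ∀ j, (u j γ, tg j γ) ∈ oblArcs κ ω := by
    intro ω γ hγ j
    obtain ⟨t, ht⟩ := hγ j
    refine ⟨finProdFinEquiv (j, t), ?_⟩
    have h1 : ω (finProdFinEquiv (j, t)) = u j γ := ht
    have h2 : κ (finProdFinEquiv (j, t)) (ω (finProdFinEquiv (j, t))) = tg j γ := by
      rw [h1, hκ]
      simp only [Equiv.symm_apply_apply, hK]
      exact (huinj j).extend_apply _ _ _
    rw [h2, h1]
  -- after the phase
  have hafter : ∀ ω : Fin (4 * T) → Fin n, ¬ Near o M' (G ∪ oblArcs κ ω) → M' < unsat u ω := by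
    intro ω hfail
    by_contra hcon
    push Not at hcon
    apply hfail
    set Pr : Fin n → Prop := fun p => ∃ (hp : p ∈ I) (l : Fin L), Succ4 u (⟨p, hp⟩, l) ω
      with hPr
    set S : Finset (Fin n) := I.filter Pr with hS
    set q : Fin n → Fin n := fun p => if h : Pr p then
      ((φ (⟨p, h.choose⟩, h.choose_spec.choose) : 𝒢) : Fin n) else 0 with hq
    have hqspec : ∀ p ∈ S, ∃ (hp : p ∈ I) (l : Fin L), Succ4 u (⟨p, hp⟩, l) ω ∧
        q p = (φ (⟨p, hp⟩, l) : 𝒢) := by
      intro p hp
      have h : Pr p := (Finset.mem_filter.1 hp).2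
      refine ⟨h.choose, h.choose_spec.choose, h.choose_spec.choose_spec, ?_⟩
      simp only [hq, dif_pos h]
    have hB' : Base o π I (G ∪ oblArcs κ ω) :=
      ⟨hB.1, fun i j hij hi => Or.inl (hB.2 i j hij hi)⟩
    have hinj : Set.InjOn q S := by
      intro p hp p' hp' h
      obtain ⟨h1, l, _, h3⟩ := hqspec p hp
      obtain ⟨h1', l', _, h3'⟩ := hqspec p' hp'
      rw [h3, h3'] at h
      have := φ.injective (Subtype.ext h)
      exact congrArg (fun x : I × Fin L => (x.1 : Fin n)) this
    have hgad : ∀ p ∈ S, Gad o π I (G ∪ oblArcs κ ω) p (q p) := by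
      intro p hp
      obtain ⟨h1, l, h2, h3⟩ := hqspec p hp
      have hmem := mem_gadgets.1 (φ (⟨p, h1⟩, l)).2
      have ha := harcs ω (⟨p, h1⟩, l) h2
      rw [h3]
      refine ⟨hmem.1, hmem.2.1, hmem.2.2, Or.inr (ha 0), Or.inr (ha 1), Or.inr (ha 2),
        Or.inr (ha 3)⟩
    obtain ⟨π', hπ'⟩ := repair_many q S π I hB' (Finset.filter_subset _ _) hinj hgad
    refine ⟨π', I \ S, ?_, hπ'⟩
    refine le_trans ?_ hcon
    have hsub : I \ S ⊆ ((Finset.univ : Finset I).filter
        fun p => ∀ l : Fin L, ¬ Succ4 u (p, l) ω).map (Function.Embedding.subtype _) := by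
      intro p hp
      rw [Finset.mem_sdiff] at hp
      rw [Finset.mem_map]
      refine ⟨⟨p, hp.1⟩, ?_, rfl⟩
      rw [Finset.mem_filter]
      refine ⟨Finset.mem_univ _, fun l hl => hp.2 ?_⟩
      rw [hS, Finset.mem_filter]
      exact ⟨hp.1, hp.1, l, hl⟩
    have hc := Finset.card_le_card hsub
    rw [Finset.card_map] at hc
    unfold unsat
    rw [← Finset.sum_filter, Finset.sum_const, nsmul_eq_mul, mul_one]
    convert (Nat.cast_le (α := ℝ)).2 hc using 2
  -- conclusion
  refine (loss_oblivious (Near o M') (4 * T) κ G).trans ?_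
  have hcn : (Fintype.card (Fin n) : ℝ) = n := by rw [Fintype.card_fin]
  rw [hcn]
  have hn0 : (0 : ℝ) < n := by exact_mod_cast Nat.pos_of_ne_zero (NeZero.ne n)
  rw [div_le_iff₀ (by positivity)]
  have hbound : (Fintype.card I : ℝ) / ((L : ℝ) * rho (Fin n) T ^ 4) ≤ e := by
    refine le_trans ?_ he
    rw [Fintype.card_coe, ← hm]
    have hs' : (0 : ℝ) < (sinks o).card - 3 * M := by linarith
    have hLR : (0 : ℝ) < L := by exact_mod_cast hLpos
    rw [div_le_div_iff₀ (by positivity) (by positivity)]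
    have hr : 0 < rho (Fin n) T ^ 4 := by positivity
    have key : (m : ℝ) * ((sinks o).card - 3 * M) ≤ M ^ 2 * L := by
      have hc' : ((sinks o).card : ℝ) ≤ 𝒢.card + 2 * m := by exact_mod_cast hcard
      have h1 : ((sinks o).card : ℝ) - 3 * M ≤ L * m := by nlinarith
      have h2 : (m : ℝ) * ((sinks o).card - 3 * M) ≤ m * (L * m) :=
        mul_le_mul_of_nonneg_left h1 (by positivity)
      have h3 : (m : ℝ) * m ≤ M ^ 2 := by nlinarith
      nlinarith
    calc (m : ℝ) * (((sinks o).card - 3 * M) * rho (Fin n) T ^ 4)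
        = (m * ((sinks o).card - 3 * M)) * rho (Fin n) T ^ 4 := by ring
      _ ≤ (M ^ 2 * L) * rho (Fin n) T ^ 4 := mul_le_mul_of_nonneg_right key hr.le
      _ = M ^ 2 * (L * rho (Fin n) T ^ 4) := by ring
  refine le_trans ?_ (hprob I L u hLpos huinj hbound)
  exact_mod_cast Set.ncard_le_ncard (fun ω hω => hafter ω hω) (Set.toFinite _)

/-- Repair phase, Markov version. -/
theorem loss_repair_markov {o : Fin n → Bool} {T : ℕ} {M M' e : ℝ} {G : Set (Fin n × Fin n)}
    (hn : 2 ≤ n) (hM' : 0 < M') (hs : 3 * M < (sinks o).card) (hρ : 0 < rho (Fin n) T)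
    (he : M ^ 2 / (((sinks o).card - 3 * M) * rho (Fin n) T ^ 4) ≤ e)
    (hG : Near o M G) : loss (Near o M') (4 * T) G ≤ e / M' := by
  have he0 : 0 ≤ e := by
    refine le_trans ?_ he
    have : (0 : ℝ) < (sinks o).card - 3 * M := by linarith
    positivity
  refine loss_repair hM'.le (by positivity) hs hρ he (fun I L u hL hu h => ?_) hG
  classical
  rw [ncard_eq_sum]
  have hc : (Fintype.card (Fin (4 * T) → Fin n) : ℝ) = (n : ℝ) ^ (4 * T) := by
    rw [Fintype.card_fun, Fintype.card_fin, Fintype.card_fin]; push_cast; rfl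
  have := unsat_markov (V := Fin n) (by rw [Fintype.card_fin]; exact hn) hL hρ u hu h hM'
  rw [hc] at this
  convert this using 3

/-- Repair phase, Chebyshev version. -/
theorem loss_repair_chebyshev {o : Fin n → Bool} {T : ℕ} {M M' e : ℝ}
    {G : Set (Fin n × Fin n)}
    (hn : 2 ≤ n) (hM' : e < M') (hs : 3 * M < (sinks o).card) (hρ : 0 < rho (Fin n) T)
    (he : M ^ 2 / (((sinks o).card - 3 * M) * rho (Fin n) T ^ 4) ≤ e)
    (hG : Near o M G) : loss (Near o M') (4 * T) G ≤ 16 * T / (M' - e) ^ 2 := by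
  have he0 : 0 ≤ e := by
    refine le_trans ?_ he
    have : (0 : ℝ) < (sinks o).card - 3 * M := by linarith
    positivity
  refine loss_repair (he0.trans hM'.le) (by positivity) hs hρ he (fun I L u hL hu h => ?_) hG
  classical
  rw [ncard_eq_sum]
  have hc : (Fintype.card (Fin (4 * T) → Fin n) : ℝ) = (n : ℝ) ^ (4 * T) := by
    rw [Fintype.card_fun, Fintype.card_fin, Fintype.card_fin]; push_cast; rfl
  have := unsat_chebyshev (V := Fin n) (by rw [Fintype.card_fin]; exact hn) hL hρ u hu h hM'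
  rw [hc] at this
  convert this using 3

end Pool.Agent.SemiRandom
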