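import Pool.Agent.SemiRandom.Repair

/-!
# Probability estimates for the repair phase
-/

namespace Pool.Agent.SemiRandom

open Finset

section

variable {V : Type} [Fintype V]

/-- The `j`-th quarter of the offers. -/
def split {T : ℕ} (ω : Fin (4 * T) → V) (j : Fin 4) (t : Fin T) : V :=
  ω (finProdFinEquiv (j, t))

/-- Splitting as an equivalence. -/
def splitEquiv (T : ℕ) (V : Type) : (Fin (4 * T) → V) ≃ (Fin 4 → Fin T → V) :=
  (Equiv.arrowCongr finProdFinEquiv.symm (Equiv.refl V)).trans (Equiv.curry (Fin 4) (Fin T) V)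

omit [Fintype V] in
theorem splitEquiv_apply {T : ℕ} (ω : Fin (4 * T) → V) : splitEquiv T V ω = split ω := by
  funext j t
  simp [splitEquiv, split, Equiv.arrowCongr]

/-- `u` is offered in the `j`-th quarter. -/
def Hit {T : ℕ} (j : Fin 4) (u : V) (ω : Fin (4 * T) → V) : Prop := ∃ t, split ω j t = u

theorem sum_prod_split {T : ℕ} (F : Fin 4 → (Fin T → V) → ℝ) :
    ∑ ω : Fin (4 * T) → V, ∏ j, F j (split ω j) = ∏ j, ∑ w : Fin T → V, F j w := by
  rw [Finset.prod_univ_sum, Fintype.piFinset_univ]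
  rw [← (splitEquiv T V).sum_comp]
  simp only [splitEquiv_apply]

/-- Probability that a fixed vertex is offered in `T` rounds. -/
noncomputable def rho (V : Type) [Fintype V] (T : ℕ) : ℝ :=
  1 - (1 - 1 / (Fintype.card V : ℝ)) ^ T

variable [Nonempty V]

theorem sum_hit' {T : ℕ} :
    (Fintype.card V : ℝ) ^ T - ((Fintype.card V : ℝ) - 1) ^ T =
      rho V T * (Fintype.card V : ℝ) ^ T := by
  have hn : (Fintype.card V : ℝ) ≠ 0 := by exact_mod_cast Fintype.card_ne_zero
  unfold rho
  rw [sub_mul, one_mul, ← mul_pow, sub_mul, one_mul, one_div, inv_mul_cancel₀ hn]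

theorem sum_hit_hit' (hV : 2 ≤ Fintype.card V) {T : ℕ} :
    (Fintype.card V : ℝ) ^ T - 2 * ((Fintype.card V : ℝ) - 1) ^ T +
        ((Fintype.card V : ℝ) - 2) ^ T ≤ rho V T ^ 2 * (Fintype.card V : ℝ) ^ T := by
  have hn2 : (2 : ℝ) ≤ Fintype.card V := by exact_mod_cast hV
  set n : ℝ := (Fintype.card V : ℝ) with hn
  have hn0 : 0 < n := by linarith
  have e1 : (n - 1) ^ T = (1 - 1 / n) ^ T * n ^ T := by
    rw [← mul_pow, sub_mul, one_mul, one_div, inv_mul_cancel₀ hn0.ne']
  have e2 : (n - 2) ^ T = (1 - 2 / n) ^ T * n ^ T := by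
    rw [← mul_pow, sub_mul, one_mul, div_mul_cancel₀ _ hn0.ne']
  have hb0 : 0 ≤ 1 - 2 / n := by
    have : 2 / n ≤ 1 := by rw [div_le_one hn0]; linarith
    linarith
  have hb : (1 - 2 / n) ^ T ≤ ((1 - 1 / n) ^ T) ^ 2 := by
    rw [← pow_mul, mul_comm, pow_mul]
    refine pow_le_pow_left₀ hb0 ?_ T
    have : (1 - 1 / n) ^ 2 = 1 - 2 / n + (1 / n) ^ 2 := by ring
    rw [this]
    have := sq_nonneg (1 / n)
    linarith
  unfold rho
  rw [e1, e2, ← hn]
  have hp : 0 ≤ n ^ T := by positivity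
  nlinarith [mul_le_mul_of_nonneg_right hb hp]

/-- All four offers needed for the gadget `γ` occur. -/
def Succ4 {T : ℕ} {Γ : Type} (u : Fin 4 → Γ → V) (γ : Γ) (ω : Fin (4 * T) → V) : Prop :=
  ∀ j, Hit j (u j γ) ω

open Classical in
omit [Nonempty V] [Fintype V] in
theorem ind_succ4 {T : ℕ} {Γ : Type} (u : Fin 4 → Γ → V) (γ : Γ) (ω : Fin (4 * T) → V) :
    (if Succ4 u γ ω then (1 : ℝ) else 0) =
      ∏ j, if ∃ t, split ω j t = u j γ then (1 : ℝ) else 0 := by
  by_cases h : Succ4 u γ ω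
  · rw [if_pos h]
    symm
    exact Finset.prod_eq_one fun j _ => if_pos (h j)
  · rw [if_neg h]
    unfold Succ4 at h
    push Not at h
    obtain ⟨j, hj⟩ := h
    symm
    exact Finset.prod_eq_zero (Finset.mem_univ j) (if_neg hj)

open Classical in
omit [Nonempty V] [Fintype V] in
theorem ind_succ4_and {T : ℕ} {Γ : Type} (u : Fin 4 → Γ → V) (γ γ' : Γ)
    (ω : Fin (4 * T) → V) :
    (if Succ4 u γ ω ∧ Succ4 u γ' ω then (1 : ℝ) else 0) =
      ∏ j, if (∃ t, split ω j t = u j γ) ∧ (∃ t, split ω j t = u j γ') then (1 : ℝ) else 0 := by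
  by_cases h : Succ4 u γ ω ∧ Succ4 u γ' ω
  · rw [if_pos h]
    symm
    exact Finset.prod_eq_one fun j _ => if_pos ⟨h.1 j, h.2 j⟩
  · rw [if_neg h]
    have : ∃ j, ¬ (Hit j (u j γ) ω ∧ Hit j (u j γ') ω) := by
      by_contra hcon
      push Not at hcon
      exact h ⟨fun j => (hcon j).1, fun j => (hcon j).2⟩
    obtain ⟨j, hj⟩ := this
    symm
    exact Finset.prod_eq_zero (Finset.mem_univ j) (if_neg hj)

open Classical in
theorem sum_succ4 {T : ℕ} {Γ : Type} (u : Fin 4 → Γ → V) (γ : Γ) :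
    (∑ ω : Fin (4 * T) → V, if Succ4 u γ ω then (1 : ℝ) else 0) =
      rho V T ^ 4 * (Fintype.card (Fin (4 * T) → V) : ℝ) := by
  simp only [ind_succ4]
  rw [sum_prod_split (fun j w => if ∃ t, w t = u j γ then (1 : ℝ) else 0)]
  simp only [sum_hit, sum_hit']
  rw [Finset.prod_const, Finset.card_univ, Fintype.card_fin, mul_pow, ← pow_mul,
    Fintype.card_fun, Fintype.card_fin, mul_comm T 4]
  push_cast
  rfl

open Classical in
theorem sum_succ4_and (hV : 2 ≤ Fintype.card V) {T : ℕ} {Γ : Type} (u : Fin 4 → Γ → V)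
    (hu : ∀ j, Function.Injective (u j)) {γ γ' : Γ} (h : γ ≠ γ') :
    (∑ ω : Fin (4 * T) → V, if Succ4 u γ ω ∧ Succ4 u γ' ω then (1 : ℝ) else 0) ≤
      (rho V T ^ 4) ^ 2 * (Fintype.card (Fin (4 * T) → V) : ℝ) := by
  simp only [ind_succ4_and]
  rw [sum_prod_split (fun j w => if (∃ t, w t = u j γ) ∧ (∃ t, w t = u j γ') then (1 : ℝ)
    else 0)]
  have hb : ∀ j ∈ (Finset.univ : Finset (Fin 4)),
      (∑ w : Fin T → V, if (∃ t, w t = u j γ) ∧ (∃ t, w t = u j γ') then (1 : ℝ) else 0) ≤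
        rho V T ^ 2 * (Fintype.card V : ℝ) ^ T := by
    intro j _
    rw [sum_hit_hit (fun h' => h (hu j h'))]
    exact sum_hit_hit' hV
  refine (Finset.prod_le_prod (fun j _ => Finset.sum_nonneg fun w _ => ?_) hb).trans
    (le_of_eq ?_)
  · split_ifs <;> norm_num
  · rw [Finset.prod_const, Finset.card_univ, Fintype.card_fin, mul_pow, ← pow_mul, ← pow_mul,
      ← pow_mul, Fintype.card_fun, Fintype.card_fin, mul_comm T 4]
    push_cast
    rfl

end

section

variable {V : Type} [Fintype V] [Nonempty V] {P : Type} [Fintype P] {L T : ℕ}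

open Classical in
/-- The number of targets without a successful gadget. -/
noncomputable def unsat (u : Fin 4 → P × Fin L → V) (ω : Fin (4 * T) → V) : ℝ :=
  ∑ p : P, if ∀ l : Fin L, ¬ Succ4 u (p, l) ω then (1 : ℝ) else 0

theorem sum_unsat_le (hV : 2 ≤ Fintype.card V) (hL : 0 < L) (hρ : 0 < rho V T)
    (u : Fin 4 → P × Fin L → V) (hu : ∀ j, Function.Injective (u j)) :
    ∑ ω : Fin (4 * T) → V, unsat u ω ≤
      ((Fintype.card P : ℝ) / ((L : ℝ) * rho V T ^ 4)) *
        (Fintype.card (Fin (4 * T) → V) : ℝ) := by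
  classical
  unfold unsat
  rw [Finset.sum_comm]
  have hb : ∀ p ∈ (Finset.univ : Finset P),
      (∑ ω : Fin (4 * T) → V, if ∀ l : Fin L, ¬ Succ4 u (p, l) ω then (1 : ℝ) else 0) ≤
        1 / ((L : ℝ) * rho V T ^ 4) * (Fintype.card (Fin (4 * T) → V) : ℝ) := by
    intro p _
    have := second_moment (α := Fin (4 * T) → V) (Γ := Fin L)
      (fun l ω => Succ4 u (p, l) ω) (r := rho V T ^ 4) (by positivity)
      (by rw [Fintype.card_fin]; exact hL) (fun l => sum_succ4 u (p, l))
      (fun l l' h => sum_succ4_and hV u hu (by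
        intro h'
        exact h (Prod.ext_iff.1 h').2))
    rw [Fintype.card_fin] at this
    convert this using 3
  refine (Finset.sum_le_sum hb).trans (le_of_eq ?_)
  rw [Finset.sum_const, Finset.card_univ, nsmul_eq_mul]
  ring

omit [Fintype V] [Nonempty V] in
theorem split_update_ne {ω : Fin (4 * T) → V} {s : Fin (4 * T)} {x : V} {j : Fin 4} {t : Fin T}
    (h : finProdFinEquiv (j, t) ≠ s) : split (Function.update ω s x) j t = split ω j t := by
  unfold split
  rw [Function.update_of_ne h]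

omit [Fintype V] [Nonempty V] in
theorem hit_update {ω : Fin (4 * T) → V} {s : Fin (4 * T)} {x v : V} {j : Fin 4}
    (h : j = (finProdFinEquiv.symm s).1 → v ≠ ω s ∧ v ≠ x) :
    Hit j v (Function.update ω s x) ↔ Hit j v ω := by
  unfold Hit
  refine exists_congr fun t => ?_
  by_cases hs : finProdFinEquiv (j, t) = s
  · have hj : j = (finProdFinEquiv.symm s).1 := by rw [← hs, Equiv.symm_apply_apply]
    obtain ⟨h1, h2⟩ := h hj
    unfold split
    rw [hs, Function.update_self]
    exact ⟨fun h' => absurd h'.symm h2, fun h' => absurd h'.symm h1⟩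
  · rw [split_update_ne hs]

theorem unsat_diff (u : Fin 4 → P × Fin L → V) (hu : ∀ j, Function.Injective (u j))
    (ω : Fin (4 * T) → V) (s : Fin (4 * T)) (x : V) :
    |unsat u (Function.update ω s x) - unsat u ω| ≤ 2 := by
  classical
  set j₀ := (finProdFinEquiv.symm s).1 with hj₀
  -- gadgets touched by the change
  set B : Finset (P × Fin L) := Finset.univ.filter fun γ => u j₀ γ = ω s ∨ u j₀ γ = x with hB
  have hBcard : B.card ≤ 2 := by
    have h1 : B.card ≤ ({ω s, x} : Finset V).card := by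
      refine Finset.card_le_card_of_injOn (u j₀) ?_ (hu j₀).injOn
      intro γ hγ
      rw [hB, Finset.coe_filter] at hγ
      rcases hγ.2 with h | h
      · simp [h]
      · simp [h]
    exact h1.trans Finset.card_le_two
  have hsame : ∀ p : P, p ∉ B.image Prod.fst →
      ((∀ l : Fin L, ¬ Succ4 u (p, l) (Function.update ω s x)) ↔
        ∀ l : Fin L, ¬ Succ4 u (p, l) ω) := by
    intro p hp
    refine forall_congr' fun l => not_congr ?_
    unfold Succ4
    refine forall_congr' fun j => hit_update ?_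
    rintro rfl
    constructor
    · intro h
      exact hp (Finset.mem_image.2 ⟨(p, l), Finset.mem_filter.2 ⟨Finset.mem_univ _, Or.inl h⟩,
        rfl⟩)
    · intro h
      exact hp (Finset.mem_image.2 ⟨(p, l), Finset.mem_filter.2 ⟨Finset.mem_univ _, Or.inr h⟩,
        rfl⟩)
  unfold unsat
  rw [← Finset.sum_sub_distrib]
  refine (Finset.abs_sum_le_sum_abs _ _).trans ?_
  have hterm : ∀ p ∈ (Finset.univ : Finset P),
      |(if ∀ l : Fin L, ¬ Succ4 u (p, l) (Function.update ω s x) then (1 : ℝ) else 0) -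
        (if ∀ l : Fin L, ¬ Succ4 u (p, l) ω then (1 : ℝ) else 0)| ≤
        if p ∈ B.image Prod.fst then (1 : ℝ) else 0 := by
    intro p _
    by_cases hp : p ∈ B.image Prod.fst
    · rw [if_pos hp]
      split_ifs <;> norm_num
    · rw [if_neg hp]
      simp only [hsame p hp, sub_self, abs_zero, le_refl]
  refine (Finset.sum_le_sum hterm).trans ?_
  rw [Finset.sum_ite_mem, Finset.univ_inter, Finset.sum_const, nsmul_eq_mul, mul_one]
  have := Finset.card_image_le (s := B) (f := Prod.fst)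
  exact_mod_cast this.trans hBcard

omit [Fintype V] [Nonempty V] in
theorem unsat_nonneg (u : Fin 4 → P × Fin L → V) (ω : Fin (4 * T) → V) : 0 ≤ unsat u ω := by
  classical
  unfold unsat
  exact Finset.sum_nonneg fun p _ => by split_ifs <;> norm_num

open Classical in
/-- Markov bound. -/
theorem unsat_markov (hV : 2 ≤ Fintype.card V) (hL : 0 < L) (hρ : 0 < rho V T)
    (u : Fin 4 → P × Fin L → V) (hu : ∀ j, Function.Injective (u j)) {e M' : ℝ}
    (he : (Fintype.card P : ℝ) / ((L : ℝ) * rho V T ^ 4) ≤ e) (hM : 0 < M') :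
    (∑ ω : Fin (4 * T) → V, if M' < unsat u ω then (1 : ℝ) else 0) ≤
      e / M' * (Fintype.card (Fin (4 * T) → V) : ℝ) := by
  refine (markov _ (unsat_nonneg u) hM).trans ?_
  rw [div_mul_eq_mul_div]
  refine div_le_div_of_nonneg_right ?_ hM.le
  refine (sum_unsat_le hV hL hρ u hu).trans ?_
  exact mul_le_mul_of_nonneg_right he (Nat.cast_nonneg _)

open Classical in
/-- Chebyshev bound. -/
theorem unsat_chebyshev (hV : 2 ≤ Fintype.card V) (hL : 0 < L) (hρ : 0 < rho V T)
    (u : Fin 4 → P × Fin L → V) (hu : ∀ j, Function.Injective (u j)) {e M' : ℝ}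
    (he : (Fintype.card P : ℝ) / ((L : ℝ) * rho V T ^ 4) ≤ e) (hM : e < M') :
    (∑ ω : Fin (4 * T) → V, if M' < unsat u ω then (1 : ℝ) else 0) ≤
      16 * T / (M' - e) ^ 2 * (Fintype.card (Fin (4 * T) → V) : ℝ) := by
  have hv := variance_bound (c := 2) (4 * T) (fun ω => unsat u ω)
    (fun ω s x => unsat_diff u hu ω s x)
  have hc : (Fintype.card (Fin (4 * T) → V) : ℝ) = (Fintype.card V : ℝ) ^ (4 * T) := by
    rw [Fintype.card_fun, Fintype.card_fin]; push_cast; rfl
  refine chebyshev (fun ω => unsat u ω) ?_ hM ?_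
  · refine (sum_unsat_le hV hL hρ u hu).trans ?_
    exact mul_le_mul_of_nonneg_right he (Nat.cast_nonneg _)
  · rw [hc]
    refine hv.trans (le_of_eq ?_)
    push_cast
    ring

end

end Pool.Agent.SemiRandom
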